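import Mathlib
import Pool.Agent.H307R2.LU
import Pool.Agent.H304R3.HK.PairH

/-!
# Project GN (helper782), task SIEG (helper531), part 1

Continuation of Dirichlet series with regular partial sums.
-/

set_option autoImplicit false

open MeasureTheory Filter Topology Set

namespace Pool.Agent.N531.GNS

open Pool.Agent.H307R2 (TM TM_norm_le TM_differentiableAt TM_integrable)

noncomputable section

/-- coefficients with regular partial sums -/
structure Reg (b : ℕ → ℂ) (κ A : ℝ) : Prop where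
  b0 : b 0 = 0
  bd : ∀ n : ℕ, ‖b n‖ ≤ n.divisors.card
  A0 : 0 ≤ A
  ps : ∀ x : ℝ, 1 ≤ x → ‖∑ n ∈ Finset.Icc 1 ⌊x⌋₊, b n - (κ : ℂ) * x‖ ≤ A * Real.sqrt x

/-- the error term -/
def Er0 (b : ℕ → ℂ) (κ : ℝ) (t : ℝ) : ℂ := ∑ n ∈ Finset.Icc 1 ⌊t⌋₊, b n - (κ : ℂ) * t

/-- normalised error term -/
def Er (b : ℕ → ℂ) (κ : ℝ) (t : ℝ) : ℂ :=
  if 1 < t then Er0 b κ t * ((t ^ (-(1 / 2) : ℝ) : ℝ) : ℂ) else 0

lemma Er0_meas (b : ℕ → ℂ) (κ : ℝ) : Measurable (Er0 b κ) := by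
  unfold Er0
  refine Measurable.sub ?_ ?_
  · have h : Measurable (fun n : ℕ => ∑ k ∈ Finset.Icc 1 n, b k) := measurable_from_nat
    exact h.comp Nat.measurable_floor
  · exact (Complex.measurable_ofReal).const_mul _

lemma Er_meas (b : ℕ → ℂ) (κ : ℝ) : Measurable (Er b κ) := by
  unfold Er
  refine Measurable.ite measurableSet_Ioi ?_ measurable_const
  refine (Er0_meas b κ).mul ?_
  exact Complex.measurable_ofReal.comp (measurable_id.pow_const _)

variable {b : ℕ → ℂ} {κ A : ℝ}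

lemma Er_norm (H : Reg b κ A) (t : ℝ) : ‖Er b κ t‖ ≤ A := by
  unfold Er
  split_ifs with ht
  · have ht0 : 0 < t := by linarith
    rw [norm_mul, Complex.norm_real, Real.norm_of_nonneg (by positivity)]
    have h1 := H.ps t ht.le
    have h2 : Real.sqrt t * t ^ (-(1 / 2) : ℝ) = 1 := by
      rw [Real.sqrt_eq_rpow, ← Real.rpow_add ht0]
      norm_num
    calc ‖Er0 b κ t‖ * t ^ (-(1 / 2) : ℝ) ≤ (A * Real.sqrt t) * t ^ (-(1 / 2) : ℝ) :=
          mul_le_mul_of_nonneg_right h1 (by positivity)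
      _ = A * (Real.sqrt t * t ^ (-(1 / 2) : ℝ)) := by ring
      _ = A := by rw [h2, mul_one]
  · rw [norm_zero]; exact H.A0

/-- the continuation (without the polar term) -/
def Cf (b : ℕ → ℂ) (κ : ℝ) (s : ℂ) : ℂ := s * TM 1 (Er b κ) (s - 1 / 2)

lemma integrand_eq (b : ℕ → ℂ) (κ : ℝ) (s : ℂ) {t : ℝ} (ht : 1 < t) :
    Er b κ t * (t : ℂ) ^ (-(s - 1 / 2 + 1)) = Er0 b κ t * (t : ℂ) ^ (-(s + 1)) := by
  have ht0 : 0 < t := by linarith
  have htc : (t : ℂ) ≠ 0 := by exact_mod_cast ht0.ne'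
  unfold Er
  rw [if_pos ht, mul_assoc]
  congr 1
  rw [Complex.ofReal_cpow ht0.le, ← Complex.cpow_add _ _ htc]
  congr 1
  push_cast
  ring

lemma Cf_int (b : ℕ → ℂ) (κ : ℝ) (s : ℂ) :
    Cf b κ s = s * ∫ t in Ioi (1 : ℝ), Er0 b κ t * (t : ℂ) ^ (-(s + 1)) := by
  unfold Cf TM
  congr 1
  rw [Nat.cast_one]
  exact setIntegral_congr_fun measurableSet_Ioi fun t ht => integrand_eq b κ s ht

lemma Cf_diff (H : Reg b κ A) {s : ℂ} (hs : 1 / 2 < s.re) : DifferentiableAt ℂ (Cf b κ) s := by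
  have h1 : DifferentiableAt ℂ (TM 1 (Er b κ)) (s - 1 / 2) := by
    refine TM_differentiableAt le_rfl (Er_meas b κ) (Er_norm H) ?_
    simp
    linarith
  have h2 : DifferentiableAt ℂ (fun z : ℂ => z - 1 / 2) s := differentiableAt_id.sub_const _
  have h3 : DifferentiableAt ℂ (fun z : ℂ => TM 1 (Er b κ) (z - 1 / 2)) s :=
    DifferentiableAt.comp (g := TM 1 (Er b κ)) (f := fun z : ℂ => z - 1 / 2) s h1 h2
  exact differentiableAt_id.mul h3

lemma Cf_norm (H : Reg b κ A) {s : ℂ} (hs : 1 / 2 < s.re) :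
    ‖Cf b κ s‖ ≤ ‖s‖ * (A / (s.re - 1 / 2)) := by
  unfold Cf
  rw [norm_mul]
  have h0 : (s - 1 / 2).re = s.re - 1 / 2 := by simp
  have h1 := TM_norm_le (N := 1) le_rfl (Er_norm H) (s := s - 1 / 2) (by rw [h0]; linarith)
  rw [Nat.cast_one, Real.one_rpow, h0] at h1
  refine mul_le_mul_of_nonneg_left (h1.trans (le_of_eq ?_)) (norm_nonneg _)
  ring

lemma summ (H : Reg b κ A) {s : ℂ} (hs : 1 < s.re) : LSeriesSummable b s := by
  have h := Pool.Agent.H304R3.HK.L1.summ_div (σ := s.re) hs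
  refine Summable.of_norm_bounded h ?_
  intro n
  rcases Nat.eq_zero_or_pos n with h0 | h0
  · subst h0
    rw [LSeries.term_zero, norm_zero]
    exact div_nonneg (Pool.Agent.H304R3.HK.L1.db_nonneg 0) (by positivity)
  · rw [LSeries.term_of_ne_zero h0.ne', norm_div, Complex.norm_natCast_cpow_of_pos h0]
    have hn : (0 : ℝ) < n := by exact_mod_cast h0
    have h8 : 0 < Real.sqrt n := Real.sqrt_pos.mpr hn
    have h6 : (n : ℝ) ^ (s.re + 1 / 2) = (n : ℝ) ^ s.re * Real.sqrt n := by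
      rw [Real.rpow_add hn, Real.sqrt_eq_rpow]
    rw [h6, Pool.Agent.H304R3.HK.L1.db, mul_div_mul_right _ _ h8.ne']
    exact div_le_div_of_nonneg_right (H.bd n) (by positivity)

lemma hasSum (H : Reg b κ A) {s : ℂ} (hs : 1 < s.re) :
    HasSum (fun n : ℕ => b n * (n : ℂ) ^ (-s)) (LSeries b s) := by
  have h := (summ H hs).hasSum
  have e : LSeries.term b s = fun n : ℕ => b n * (n : ℂ) ^ (-s) := by
    funext n
    rcases eq_or_ne n 0 with rfl | hn
    · rw [LSeries.term_zero, H.b0, zero_mul]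
    · rw [LSeries.term_of_ne_zero hn, div_eq_mul_inv, ← Complex.cpow_neg]
  rw [← e]
  exact h

lemma Cf_eq (H : Reg b κ A) {s : ℂ} (hs : 1 < s.re) :
    LSeries b s = κ * s / (s - 1) + Cf b κ s := by
  have hs1 : s - 1 ≠ 0 := by
    intro h
    have : (s - 1).re = 0 := by rw [h]; simp
    simp at this
    linarith
  have hO : (fun n : ℕ => ∑ k ∈ Finset.Icc 1 n, b k) =O[atTop] fun n : ℕ => (n : ℝ) ^ (1 : ℝ) := by
    refine Asymptotics.IsBigO.of_bound (A + |κ|) ?_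
    filter_upwards [eventually_ge_atTop 1] with n hn
    have hn1 : (1 : ℝ) ≤ n := by exact_mod_cast hn
    have h1 := H.ps n hn1
    rw [Nat.floor_natCast] at h1
    have h2 : Real.sqrt n ≤ n := by
      rw [Real.sqrt_le_left (by positivity)]
      nlinarith
    have h3 : ‖(κ : ℂ) * ((n : ℝ) : ℂ)‖ = |κ| * n := by
      rw [norm_mul, Complex.norm_real, Complex.norm_real, Real.norm_eq_abs, Real.norm_of_nonneg
        (by positivity)]
    rw [Real.rpow_one, Real.norm_of_nonneg (by positivity)]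
    calc ‖∑ k ∈ Finset.Icc 1 n, b k‖
        = ‖(∑ k ∈ Finset.Icc 1 n, b k - (κ : ℂ) * ((n : ℝ) : ℂ)) + (κ : ℂ) * ((n : ℝ) : ℂ)‖ := by
          rw [sub_add_cancel]
      _ ≤ A * Real.sqrt n + |κ| * n := (norm_add_le _ _).trans (add_le_add h1 h3.le)
      _ ≤ A * n + |κ| * n := by
          have := mul_le_mul_of_nonneg_left h2 H.A0
          linarith
      _ = (A + |κ|) * n := by ring
  rw [LSeries_eq_mul_integral b zero_le_one hs (summ H hs) hO, Cf_int]
  have hi1 : IntegrableOn (fun t : ℝ => Er0 b κ t * (t : ℂ) ^ (-(s + 1))) (Ioi (1 : ℝ)) := by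
    have h := TM_integrable (N := 1) le_rfl (Er_meas b κ) (Er_norm H) (s := s - 1 / 2)
      (by simp; linarith)
    rw [Nat.cast_one] at h
    exact h.congr_fun (fun t ht => integrand_eq b κ s ht) measurableSet_Ioi
  have hre : (-s).re < -1 := by simp; exact hs
  have hi2 : IntegrableOn (fun t : ℝ => (κ : ℂ) * (t : ℂ) ^ (-s)) (Ioi (1 : ℝ)) :=
    (integrableOn_Ioi_cpow_of_lt hre one_pos).const_mul _
  have e1 : ∫ t in Ioi (1 : ℝ), (∑ k ∈ Finset.Icc 1 ⌊t⌋₊, b k) * (t : ℂ) ^ (-(s + 1)) =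
      ∫ t in Ioi (1 : ℝ), (Er0 b κ t * (t : ℂ) ^ (-(s + 1)) + (κ : ℂ) * (t : ℂ) ^ (-s)) := by
    refine setIntegral_congr_fun measurableSet_Ioi fun t ht => ?_
    have ht' : (1 : ℝ) < t := ht
    have ht0 : (t : ℂ) ≠ 0 := by
      have : t ≠ 0 := by linarith
      exact_mod_cast this
    have h4 : (t : ℂ) ^ (-s) = t * (t : ℂ) ^ (-(s + 1)) := by
      have : -s = 1 + (-(s + 1)) := by ring
      conv_lhs => rw [this]
      rw [Complex.cpow_add _ _ ht0, Complex.cpow_one]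
    simp only [Er0]
    rw [h4]
    ring
  rw [e1, integral_add hi1 hi2, integral_const_mul, integral_Ioi_cpow_of_lt hre one_pos]
  have hs2 : -s + 1 ≠ 0 := by
    intro h
    apply hs1
    linear_combination -h
  rw [Complex.ofReal_one, Complex.one_cpow]
  field_simp
  ring

/-- bound at `1` -/
lemma Cf_one (H : Reg b 0 A) {B δ : ℝ} (hB : 0 ≤ B)
    (hb : ∀ x : ℝ, 1 ≤ x → ‖∑ n ∈ Finset.Icc 1 ⌊x⌋₊, b n‖ ≤ B * x) (hδ : 0 < δ) (hδ1 : δ ≤ 1) :
    ‖Cf b 0 1‖ ≤ B ^ (1 - δ) * A ^ δ * (2 / δ) := by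
  rw [Cf_int, one_mul]
  have h1 : ∫ t in Ioi (1 : ℝ), B ^ (1 - δ) * A ^ δ * t ^ (-1 - δ / 2) =
      B ^ (1 - δ) * A ^ δ * (2 / δ) := by
    rw [integral_const_mul, integral_Ioi_rpow_of_lt (by linarith) one_pos]
    rw [Real.one_rpow]
    congr 1
    have : -1 - δ / 2 + 1 = -(δ / 2) := by ring
    rw [this, neg_div_neg_eq]
    field_simp
  rw [← h1]
  refine norm_integral_le_of_norm_le
    ((integrableOn_Ioi_rpow_of_lt (by linarith) one_pos).const_mul _) ?_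
  refine (ae_restrict_mem measurableSet_Ioi).mono fun t ht => ?_
  have ht' : (1 : ℝ) < t := ht
  have ht0 : 0 < t := by linarith
  rw [norm_mul, Complex.norm_cpow_eq_rpow_re_of_pos ht0]
  have h2 : (-((1 : ℂ) + 1)).re = -2 := by simp; norm_num
  rw [h2]
  set S := ‖Er0 b 0 t‖ with hS
  have hS0 : 0 ≤ S := norm_nonneg _
  have hSB : S ≤ B * t := by
    have := hb t ht'.le
    rw [hS]
    unfold Er0
    simpa using this
  have hSA : S ≤ A * t ^ (1 / 2 : ℝ) := by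
    have := H.ps t ht'.le
    rw [Real.sqrt_eq_rpow] at this
    exact this
  have h3 : S ≤ (B * t) ^ (1 - δ) * (A * t ^ (1 / 2 : ℝ)) ^ δ := by
    calc S = S ^ (1 - δ) * S ^ δ := by
          rw [← Real.rpow_add_of_nonneg hS0 (by linarith) hδ.le]
          simp
      _ ≤ (B * t) ^ (1 - δ) * (A * t ^ (1 / 2 : ℝ)) ^ δ :=
          mul_le_mul (Real.rpow_le_rpow hS0 hSB (by linarith)) (Real.rpow_le_rpow hS0 hSA hδ.le)
            (by positivity) (by positivity)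
  have h4 : (B * t) ^ (1 - δ) * (A * t ^ (1 / 2 : ℝ)) ^ δ * t ^ (-2 : ℝ) =
      B ^ (1 - δ) * A ^ δ * t ^ (-1 - δ / 2) := by
    rw [Real.mul_rpow hB ht0.le, Real.mul_rpow H.A0 (by positivity), ← Real.rpow_mul ht0.le]
    have e : t ^ (-1 - δ / 2) = t ^ (1 - δ) * t ^ (1 / 2 * δ) * t ^ (-2 : ℝ) := by
      rw [← Real.rpow_add ht0, ← Real.rpow_add ht0]
      congr 1
      ring
    rw [e]
    ring
  rw [← h4]
  exact mul_le_mul_of_nonneg_right h3 (by positivity)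

/-- real on the real axis -/
lemma Cf_im (b : ℕ → ℂ) (κ : ℝ) (hr : ∀ n, (b n).im = 0) (x : ℝ) : (Cf b κ (x : ℂ)).im = 0 := by
  have hre : ∀ n, b n = (((b n).re : ℝ) : ℂ) := by
    intro n
    apply Complex.ext
    · simp
    · simpa using hr n
  rw [Cf_int]
  have e1 : ∫ t in Ioi (1 : ℝ), Er0 b κ t * (t : ℂ) ^ (-((x : ℂ) + 1)) =
      ((∫ t in Ioi (1 : ℝ), (∑ n ∈ Finset.Icc 1 ⌊t⌋₊, (b n).re - κ * t) *
        t ^ (-(x + 1)) : ℝ) : ℂ) := by
    rw [← integral_complex_ofReal]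
    refine setIntegral_congr_fun measurableSet_Ioi fun t ht => ?_
    have ht' : (1 : ℝ) < t := ht
    have ht0 : 0 ≤ t := by linarith
    simp only [Er0]
    rw [Complex.ofReal_mul, Complex.ofReal_cpow ht0]
    push_cast
    congr 1
    congr 1
    exact Finset.sum_congr rfl fun n _ => hre n
  rw [e1]
  simp [← Complex.ofReal_mul]

end

end Pool.Agent.N531.GNS
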