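import Mathlib
import Pool.Agent.N531.GN.Cont
import Pool.Agent.N782.GN.StmV
import Pool.Agent.H304R3.HK.LamH
import Pool.Agent.H304R3.HK.LgB

/-!
# Project GN (helper782), task SIEG (helper531), part 2

Sums of characters over the Gaussian integers of bounded norm.
-/

set_option autoImplicit false

namespace Pool.Agent.N531.GNS

open Pool.Agent.N782.GN
open Pool.Agent.H304R3.HK (UH bb Lg lg_bb ccf LamK lam_eq)
open Pool.Agent.H304R3.HK.M4 (T mem_T bb_eq h1 h1_of h1i norm_nn norm_zero_iff)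

noncomputable section

lemma norm_nat (z : ZI) : (z.norm : ℤ) = ((z.norm.natAbs : ℕ) : ℤ) := by
  rw [Int.natAbs_of_nonneg (norm_nn z)]

lemma nz_nat (z : ZI) : nz z = (z.norm.natAbs : ℝ) := by
  unfold nz
  have h := norm_nat z
  have : ((z.norm : ℤ) : ℝ) = (((z.norm.natAbs : ℕ) : ℤ) : ℝ) := by rw [← h]
  rw [this]
  simp

lemma natAbs_norm_pos {z : ZI} (hz : z ≠ 0) : 1 ≤ z.norm.natAbs := by
  rw [Nat.one_le_iff_ne_zero, Ne, Int.natAbs_eq_zero]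
  intro h
  exact hz (norm_zero_iff h)

lemma sum_bb (f : ZI → ℂ) {x : ℝ} (hx : 0 ≤ x) :
    ∑ n ∈ Finset.Icc 1 ⌊x⌋₊, bb f n = (1 / 4 : ℂ) * ∑ t ∈ bl x, f t := by
  classical
  have h1 : ∑ t ∈ bl x, f t = ∑ n ∈ Finset.Icc 1 ⌊x⌋₊,
      ∑ t ∈ (bl x).filter (fun t => t.norm.natAbs = n), f t := by
    symm
    apply Finset.sum_fiberwise_of_maps_to
    intro z hz
    rw [mem_bl] at hz
    rw [Finset.mem_Icc]
    refine ⟨natAbs_norm_pos hz.1, ?_⟩
    apply Nat.le_floor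
    rw [← nz_nat]
    exact hz.2
  rw [h1, Finset.mul_sum]
  refine Finset.sum_congr rfl fun n hn => ?_
  rw [Finset.mem_Icc] at hn
  rw [bb_eq]
  congr 1
  refine Finset.sum_congr ?_ fun _ _ => rfl
  ext z
  rw [mem_T, Finset.mem_filter, mem_bl]
  constructor
  · intro hz
    have hz' : z.norm.natAbs = n := by
      rw [hz]; simp
    refine ⟨⟨?_, ?_⟩, hz'⟩
    · rintro rfl
      simp at hz'
      omega
    · rw [nz_nat, hz']
      exact (Nat.le_floor_iff hx).1 hn.2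
  · rintro ⟨_, hz⟩
    rw [norm_nat, hz]

lemma ph00 (t : ZI) : ph 0 0 t = 1 := by
  unfold ph
  simp

/-- the constant of (EL) -/
def ELC (C : ℝ) : Prop := 0 < C ∧ ∀ (q : ℕ) (r : ZI) (Y : ℝ), 1 ≤ q → 1 ≤ Y →
  ‖((cls q r Y).card : ℂ) - ((Real.pi / (q : ℝ) ^ 2 * Y : ℝ) : ℂ)‖ ≤ C * Real.sqrt Y

lemma ELC_of (h : S_EL) : ∃ C, ELC C := by
  obtain ⟨C, hC, h⟩ := h
  refine ⟨C, hC, ?_⟩
  intro q r Y hq hY
  have h1 := h 0 0 q r Y hq hY
  simp only [ph00, Finset.sum_const, nsmul_eq_mul, mul_one, if_true, Int.cast_zero, abs_zero,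
    add_zero, Complex.ofReal_zero, zero_mul, sub_zero, Complex.cpow_one, div_one] at h1
  refine le_trans (le_of_eq ?_) h1
  congr 2
  push_cast
  ring

variable {q : ℕ} {χ : ZI →* ℂ}

section quot

/-- residue classes modulo `q` -/
abbrev QQ (q : ℕ) : Type := ZI ⧸ Ideal.span {((q : ℕ) : ZI)}

lemma mk_eq {a b : ZI} : (Ideal.Quotient.mk (Ideal.span {((q : ℕ) : ZI)}) a =
    Ideal.Quotient.mk (Ideal.span {((q : ℕ) : ZI)}) b) ↔ ((q : ℕ) : ZI) ∣ a - b := by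
  rw [Ideal.Quotient.eq, Ideal.mem_span_singleton]

lemma surj (hq : 1 ≤ q) : Function.Surjective (fun p : Fin q × Fin q =>
    Ideal.Quotient.mk (Ideal.span {((q : ℕ) : ZI)}) (⟨(p.1 : ℕ), (p.2 : ℕ)⟩ : ZI)) := by
  intro x
  obtain ⟨z, rfl⟩ := Ideal.Quotient.mk_surjective x
  have hq0 : (0 : ℤ) < q := by exact_mod_cast hq
  have hm : ∀ y : ℤ, ∃ k : Fin q, ((k : ℕ) : ℤ) = y % q := by
    intro y
    have h1 := Int.emod_nonneg y hq0.ne'
    have h2 := Int.emod_lt_of_pos y hq0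
    refine ⟨⟨(y % q).toNat, by omega⟩, ?_⟩
    simp [h1]
  obtain ⟨k, hk⟩ := hm z.re
  obtain ⟨l, hl⟩ := hm z.im
  refine ⟨(k, l), ?_⟩
  simp only
  rw [mk_eq]
  refine ⟨⟨-(z.re / q), -(z.im / q)⟩, ?_⟩
  rw [Zsqrtd.ext_iff]
  simp only [Zsqrtd.re_sub, Zsqrtd.im_sub, Zsqrtd.re_mul, Zsqrtd.im_mul, Zsqrtd.re_natCast,
    Zsqrtd.im_natCast]
  rw [hk, hl]
  constructor
  · have := Int.emod_add_mul_ediv z.re q
    linarith
  · have := Int.emod_add_mul_ediv z.im q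
    linarith

lemma fin_QQ (hq : 1 ≤ q) : Finite (QQ q) := Finite.of_surjective _ (surj hq)

lemma card_QQ (hq : 1 ≤ q) : Nat.card (QQ q) ≤ q ^ 2 := by
  have := fin_QQ hq
  have h := Nat.card_le_card_of_surjective _ (surj hq)
  rw [Nat.card_prod, Nat.card_fin] at h
  rwa [sq]

/-- a character modulo `q` as a function on the classes -/
def fq (q : ℕ) (χ : ZI →* ℂ) (x : QQ q) : ℂ := χ (Quotient.out x)

lemma fq_mk (hχ : Chi q χ) (a : ZI) :
    fq q χ (Ideal.Quotient.mk (Ideal.span {((q : ℕ) : ZI)}) a) = χ a := by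
  unfold fq
  apply hχ.per
  rw [← mk_eq]
  exact Ideal.Quotient.mk_out _

lemma chi_le (hχ : Chi q χ) (a : ZI) : ‖χ a‖ ≤ 1 := by
  by_cases h : IsCoprime a ((q : ℕ) : ZI)
  · exact (hχ.nrm a h).le
  · have : χ a = 0 := by
      by_contra h0
      exact h ((hχ.supp a).1 h0)
    rw [this, norm_zero]
    exact zero_le_one

lemma sum_fq [Fintype (QQ q)] (hχ : Chi q χ) (hnp : ∃ a : ZI, IsCoprime a ((q : ℕ) : ZI) ∧ χ a ≠ 1) :
    ∑ x : QQ q, fq q χ x = 0 := by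
  obtain ⟨a, ha, ha1⟩ := hnp
  have hu : IsUnit (Ideal.Quotient.mk (Ideal.span {((q : ℕ) : ZI)}) a) := by
    obtain ⟨u, v, huv⟩ := ha
    have h1 : Ideal.Quotient.mk (Ideal.span {((q : ℕ) : ZI)}) (u * a) = 1 := by
      rw [← map_one (Ideal.Quotient.mk (Ideal.span {((q : ℕ) : ZI)})), mk_eq]
      refine ⟨-v, ?_⟩
      linear_combination huv
    rw [map_mul] at h1
    exact IsUnit.of_mul_eq_one_right _ h1
  have hb : Function.Bijective (fun x : QQ q => Ideal.Quotient.mk (Ideal.span {((q : ℕ) : ZI)}) a * x) :=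
    IsUnit.isUnit_iff_mulLeft_bijective.1 hu
  have h1 : ∑ x : QQ q, fq q χ (Ideal.Quotient.mk (Ideal.span {((q : ℕ) : ZI)}) a * x) =
      ∑ x : QQ q, fq q χ x := hb.sum_comp (fq q χ)
  have h2 : ∀ x : QQ q, fq q χ (Ideal.Quotient.mk (Ideal.span {((q : ℕ) : ZI)}) a * x) =
      χ a * fq q χ x := by
    intro x
    obtain ⟨z, rfl⟩ := Ideal.Quotient.mk_surjective x
    rw [← map_mul, fq_mk hχ, fq_mk hχ, map_mul]
  simp_rw [h2] at h1
  rw [← Finset.mul_sum] at h1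
  have h3 : (χ a - 1) * ∑ x : QQ q, fq q χ x = 0 := by linear_combination h1
  rcases mul_eq_zero.1 h3 with h4 | h4
  · exact absurd (sub_eq_zero.1 h4) ha1
  · exact h4

lemma char_sum {C : ℝ} (hC : ELC C) (hq : 1 ≤ q) (hχ : Chi q χ)
    (hnp : ∃ a : ZI, IsCoprime a ((q : ℕ) : ZI) ∧ χ a ≠ 1) {Y : ℝ} (hY : 1 ≤ Y) :
    ‖∑ t ∈ bl Y, χ t‖ ≤ C * (q : ℝ) ^ 2 * Real.sqrt Y := by
  classical
  have := fin_QQ hq
  have : Fintype (QQ q) := Fintype.ofFinite _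
  have h1 : ∑ t ∈ bl Y, χ t = ∑ x : QQ q, fq q χ x * ((cls q (Quotient.out x) Y).card : ℂ) := by
    rw [← Finset.sum_fiberwise (bl Y) (fun t => Ideal.Quotient.mk (Ideal.span {((q : ℕ) : ZI)}) t)]
    refine Finset.sum_congr rfl fun x _ => ?_
    have h2 : (bl Y).filter (fun t => Ideal.Quotient.mk (Ideal.span {((q : ℕ) : ZI)}) t = x) =
        cls q (Quotient.out x) Y := by
      unfold cls
      refine Finset.filter_congr fun t _ => ?_
      rw [← mk_eq]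
      have : Ideal.Quotient.mk (Ideal.span {((q : ℕ) : ZI)}) (Quotient.out x) = x :=
        Ideal.Quotient.mk_out x
      rw [this]
    rw [h2, mul_comm, ← nsmul_eq_mul]
    apply Finset.sum_eq_card_nsmul
    intro t ht
    unfold cls at ht
    rw [Finset.mem_filter, ← mk_eq] at ht
    rw [← fq_mk hχ t, ht.2, fq_mk hχ]
    rfl
  have h3 : ∑ t ∈ bl Y, χ t = ∑ x : QQ q, fq q χ x * (((cls q (Quotient.out x) Y).card : ℂ) -
      ((Real.pi / (q : ℝ) ^ 2 * Y : ℝ) : ℂ)) := by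
    simp_rw [mul_sub]
    rw [Finset.sum_sub_distrib, ← Finset.sum_mul, sum_fq hχ hnp, zero_mul, sub_zero, h1]
  rw [h3]
  calc ‖∑ x : QQ q, fq q χ x * (((cls q (Quotient.out x) Y).card : ℂ) -
      ((Real.pi / (q : ℝ) ^ 2 * Y : ℝ) : ℂ))‖ ≤ ∑ x : QQ q, C * Real.sqrt Y := by
        refine (norm_sum_le _ _).trans (Finset.sum_le_sum fun x _ => ?_)
        rw [norm_mul]
        calc _ ≤ 1 * (C * Real.sqrt Y) := by
              refine mul_le_mul (chi_le hχ _) (hC.2 q _ Y hq hY) (norm_nonneg _) zero_le_one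
          _ = _ := one_mul _
    _ = (Fintype.card (QQ q) : ℝ) * (C * Real.sqrt Y) := by
        rw [Finset.sum_const, nsmul_eq_mul, Finset.card_univ]
    _ ≤ (q : ℝ) ^ 2 * (C * Real.sqrt Y) := by
        have h4 := card_QQ hq
        rw [Nat.card_eq_fintype_card] at h4
        have h5 : (Fintype.card (QQ q) : ℝ) ≤ (q : ℝ) ^ 2 := by exact_mod_cast h4
        have := hC.1
        exact mul_le_mul_of_nonneg_right h5 (by positivity)
    _ = C * (q : ℝ) ^ 2 * Real.sqrt Y := by ring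

end quot

lemma bl_card {C : ℝ} (hC : ELC C) {Y : ℝ} (hY : 1 ≤ Y) :
    ‖((bl Y).card : ℂ) - ((Real.pi * Y : ℝ) : ℂ)‖ ≤ C * Real.sqrt Y := by
  have h := hC.2 1 0 Y le_rfl hY
  have e : cls 1 0 Y = bl Y := by
    classical
    unfold cls
    apply Finset.filter_true_of_mem
    intro t _
    rw [Nat.cast_one]
    exact one_dvd _
  rw [e] at h
  simpa using h

lemma bl_card_le {C : ℝ} (hC : ELC C) {Y : ℝ} (hY : 1 ≤ Y) :
    ((bl Y).card : ℝ) ≤ (4 + C) * Y := by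
  have h := bl_card hC hY
  have h1 : |((bl Y).card : ℝ) - Real.pi * Y| ≤ C * Real.sqrt Y := by
    have e : ((bl Y).card : ℂ) - ((Real.pi * Y : ℝ) : ℂ) =
        ((((bl Y).card : ℝ) - Real.pi * Y : ℝ) : ℂ) := by push_cast; ring
    rw [e, Complex.norm_real, Real.norm_eq_abs] at h
    exact h
  have h2 := (abs_le.1 h1).2
  have h3 : Real.sqrt Y ≤ Y := by
    rw [Real.sqrt_le_left (by positivity)]
    nlinarith
  have h4 := Real.pi_lt_four
  have h5 := mul_le_mul_of_nonneg_left h3 hC.1.le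
  nlinarith

/-! ### The sequences -/

lemma UH_h1 : UH h1 := ⟨by simp [h1], by
  intro a
  by_cases ha : a = 0
  · rw [ha]; simp [h1]
  · rw [h1_of ha]; simp, h1i⟩

lemma UH_of (hχ : RChi q χ) : UH χ := by
  refine ⟨?_, chi_le hχ.chi, hχ.unit⟩
  by_contra h0
  obtain ⟨a, _, ha⟩ := hχ.np
  apply ha
  have : χ 0 * χ a = χ 0 * 1 := by rw [← map_mul, zero_mul, mul_one]
  exact mul_left_cancel₀ h0 this

lemma bb_zero (f : ZI → ℂ) (h0 : f 0 = 0) : bb f 0 = 0 := by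
  rw [bb_eq]
  rw [Finset.sum_eq_zero, mul_zero]
  intro z hz
  rw [mem_T] at hz
  have : z = 0 := norm_zero_iff (by simpa using hz)
  rw [this, h0]

lemma Reg_h1 {C : ℝ} (hC : ELC C) : Reg (bb h1) (Real.pi / 4) C := by
  refine ⟨bb_zero _ UH_h1.h0, (lg_bb h1 UH_h1).bd, hC.1.le, ?_⟩
  intro x hx
  rw [sum_bb _ (by linarith)]
  have e : ∑ t ∈ bl x, h1 t = ((bl x).card : ℂ) := by
    rw [Finset.sum_congr rfl (g := fun _ => (1 : ℂ)) (fun t ht => h1_of ((mem_bl _ _).1 ht).1)]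
    simp
  rw [e]
  have h := bl_card hC hx
  have e2 : (1 / 4 : ℂ) * ((bl x).card : ℂ) - ((Real.pi / 4 : ℝ) : ℂ) * x =
      (1 / 4 : ℂ) * (((bl x).card : ℂ) - ((Real.pi * x : ℝ) : ℂ)) := by push_cast; ring
  rw [e2, norm_mul]
  have e3 : ‖(1 / 4 : ℂ)‖ = 1 / 4 := by norm_num
  rw [e3]
  have h2 : 0 ≤ C * Real.sqrt x := by have := hC.1; positivity
  linarith

lemma Reg_chi {C : ℝ} (hC : ELC C) (hq : 1 ≤ q) (hχ : RChi q χ) :
    Reg (bb χ) 0 (C * (q : ℝ) ^ 2) := by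
  have hC0 := hC.1
  refine ⟨bb_zero _ (UH_of hχ).h0, (lg_bb χ (UH_of hχ)).bd, by positivity, ?_⟩
  intro x hx
  rw [sum_bb _ (by linarith), Complex.ofReal_zero, zero_mul, sub_zero, norm_mul]
  have e3 : ‖(1 / 4 : ℂ)‖ = 1 / 4 := by norm_num
  rw [e3]
  have h := char_sum hC hq hχ.chi hχ.np hx
  have h2 : 0 ≤ C * (q : ℝ) ^ 2 * Real.sqrt x := by positivity
  linarith

lemma trivial_chi {C : ℝ} (hC : ELC C) (hχ : RChi q χ) {x : ℝ} (hx : 1 ≤ x) :
    ‖∑ n ∈ Finset.Icc 1 ⌊x⌋₊, bb χ n‖ ≤ (4 + C) * x := by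
  rw [sum_bb _ (by linarith), norm_mul]
  have e3 : ‖(1 / 4 : ℂ)‖ = 1 / 4 := by norm_num
  rw [e3]
  have h : ‖∑ t ∈ bl x, χ t‖ ≤ ((bl x).card : ℝ) := by
    refine (norm_sum_le _ _).trans ?_
    rw [← nsmul_one, ← Finset.sum_const]
    exact Finset.sum_le_sum fun t _ => chi_le hχ.chi t
  have h1 := bl_card_le hC hx
  have := hC.1
  nlinarith

/-- upper bound at `1` -/
lemma upper_one {C : ℝ} (hC : ELC C) (hq : 1 ≤ q) (hχ : RChi q χ) {δ : ℝ} (hδ : 0 < δ) (hδ1 : δ ≤ 1) :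
    ‖Cf (bb χ) 0 1‖ ≤ (4 + C) * (C + 1) * (2 / δ) * (q : ℝ) ^ (2 * δ) := by
  have hC0 := hC.1
  have hq0 : (0 : ℝ) < q := by exact_mod_cast hq
  have h := Cf_one (Reg_chi hC hq hχ) (B := 4 + C) (δ := δ) (by linarith)
    (fun x hx => trivial_chi hC hχ hx) hδ hδ1
  refine h.trans ?_
  have h1 : (4 + C) ^ (1 - δ) ≤ 4 + C := by
    calc (4 + C) ^ (1 - δ) ≤ (4 + C) ^ (1 : ℝ) :=
          Real.rpow_le_rpow_of_exponent_le (by linarith) (by linarith)
      _ = 4 + C := Real.rpow_one _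
  have h2 : (C * (q : ℝ) ^ 2) ^ δ ≤ (C + 1) * (q : ℝ) ^ (2 * δ) := by
    rw [Real.mul_rpow hC0.le (by positivity)]
    have h3 : ((q : ℝ) ^ 2) ^ δ = (q : ℝ) ^ (2 * δ) := by
      rw [← Real.rpow_natCast, ← Real.rpow_mul hq0.le]
      norm_num
    have h4 : C ^ δ ≤ C + 1 := by
      calc C ^ δ ≤ (C + 1) ^ δ := Real.rpow_le_rpow hC0.le (by linarith) hδ.le
        _ ≤ (C + 1) ^ (1 : ℝ) := Real.rpow_le_rpow_of_exponent_le (by linarith) hδ1
        _ = C + 1 := Real.rpow_one _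
    rw [h3]
    exact mul_le_mul_of_nonneg_right h4 (by positivity)
  calc (4 + C) ^ (1 - δ) * (C * (q : ℝ) ^ 2) ^ δ * (2 / δ)
      ≤ (4 + C) * ((C + 1) * (q : ℝ) ^ (2 * δ)) * (2 / δ) := by
        refine mul_le_mul_of_nonneg_right ?_ (by positivity)
        exact mul_le_mul h1 h2 (by positivity) (by linarith)
    _ = _ := by ring

end

end Pool.Agent.N531.GNS
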