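import Mathlib
import Pool.Agent.N531.GN.Sums
import Pool.Agent.H304R3.HK.LogDerH
import Pool.Agent.H307R2.Sg2

/-!
# Project GN (helper782), task SIEG (helper531), part 3

Products of L-series of characters of the Gaussian integers with nonnegative sum: the derivatives alternate in
sign.
-/

set_option autoImplicit false

open Filter Topology Set
open scoped ComplexOrder

namespace Pool.Agent.N531.GNS

open Pool.Agent.N782.GN
open Pool.Agent.H304R3.HK (UH bb Lg lg_bb ccf LamK lam_eq)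
open Pool.Agent.H304R3.HK.M4 (T mem_T bb_eq h1 h1_of h1i norm_nn norm_zero_iff)
open Pool.Agent.H304R3.HK.LogDerH (bco lco F_exp hasDeriv hasDeriv_lco bco_summable lco_summable)

noncomputable section

variable {ι : Type} [Fintype ι]

/-- product of the L-series -/
def PL (h : ι → ZI →* ℂ) (s : ℂ) : ℂ := ∏ j, LSeries (bb (h j)) s

/-- coefficients of minus the logarithmic derivative -/
def gc (h : ι → ZI →* ℂ) : ℕ → ℂ := ∑ j, bco (ccf (h j))

/-- coefficients of the logarithm -/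
def lc (h : ι → ZI →* ℂ) : ℕ → ℂ := ∑ j, lco (ccf (h j))

lemma LamK_nonneg (z : ZI) : 0 ≤ LamK z := by
  unfold LamK
  split_ifs with h
  · exact Real.log_intCast_nonneg _
  · exact le_rfl

lemma bb_nonneg {f : ZI → ℂ} (hf : ∀ z, 0 ≤ f z) (n : ℕ) : 0 ≤ bb f n := by
  rw [bb_eq]
  refine mul_nonneg ?_ (Finset.sum_nonneg fun z _ => hf z)
  rw [Complex.le_def]
  norm_num

lemma bb_sum (f : ι → ZI → ℂ) (n : ℕ) : ∑ j, bb (f j) n = bb (fun z => ∑ j, f j z) n := by
  simp_rw [bb_eq]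
  rw [← Finset.mul_sum, Finset.sum_comm]

lemma gc_eq (h : ι → ZI →* ℂ) (hh : ∀ j, UH (h j)) (n : ℕ) :
    gc h n = bb (fun z => (LamK z : ℂ) * ∑ j, h j z) n := by
  unfold gc
  rw [Finset.sum_apply]
  have e : ∀ j, bco (ccf (h j)) n = bb (fun z => (LamK z : ℂ) * h j z) n := by
    intro j
    rw [lam_eq (h j) (hh j) n]
    rfl
  simp_rw [e]
  rw [bb_sum]
  congr 1
  funext z
  rw [Finset.mul_sum]

lemma gc_nonneg (h : ι → ZI →* ℂ) (hh : ∀ j, UH (h j)) (hp : ∀ z, 0 ≤ ∑ j, h j z) (n : ℕ) :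
    0 ≤ gc h n := by
  rw [gc_eq h hh]
  apply bb_nonneg
  intro z
  exact mul_nonneg (Complex.zero_le_real.2 (LamK_nonneg z)) (hp z)

lemma lc_eq (h : ι → ZI →* ℂ) (n : ℕ) : lc h n = gc h n * (((Real.log n)⁻¹ : ℝ) : ℂ) := by
  unfold lc gc
  rw [Finset.sum_apply, Finset.sum_apply, Finset.sum_mul]
  refine Finset.sum_congr rfl fun j _ => ?_
  unfold lco
  rw [Complex.ofReal_inv, ← div_eq_mul_inv]

lemma lc_nonneg (h : ι → ZI →* ℂ) (hh : ∀ j, UH (h j)) (hp : ∀ z, 0 ≤ ∑ j, h j z) (n : ℕ) :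
    0 ≤ lc h n := by
  rw [lc_eq]
  refine mul_nonneg (gc_nonneg h hh hp n) (Complex.zero_le_real.2 ?_)
  rw [inv_nonneg]
  exact Real.log_natCast_nonneg n

lemma hs_of (h : ZI →* ℂ) (hh : UH h) (s : ℂ) (hs : 1 < s.re) :
    HasSum (fun n : ℕ => bb h n * (n : ℂ) ^ (-s)) (LSeries (bb h) s) := by
  have h1 := Pool.Agent.H304R3.HK.FF_series (bb h) (lg_bb h hh).b0 (lg_bb h hh).bd s hs
  have h2 : LSeries (bb h) s = Pool.Agent.H304R3.HK.FF (bb h) s := by
    rw [← h1.tsum_eq]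
    unfold LSeries
    refine tsum_congr fun n => ?_
    rcases eq_or_ne n 0 with rfl | hn
    · rw [LSeries.term_zero, (lg_bb h hh).b0, zero_mul]
    · rw [LSeries.term_of_ne_zero hn, div_eq_mul_inv, ← Complex.cpow_neg]
  rw [h2]
  exact h1

lemma gc_summable (h : ι → ZI →* ℂ) (hh : ∀ j, UH (h j)) {s : ℂ} (hs : 1 < s.re) :
    LSeriesSummable (gc h) s := by
  unfold gc
  exact LSeriesSummable.sum fun j _ => bco_summable _ _ (lg_bb (h j) (hh j)) s hs

lemma lc_summable (h : ι → ZI →* ℂ) (hh : ∀ j, UH (h j)) {s : ℂ} (hs : 1 < s.re) :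
    LSeriesSummable (lc h) s := by
  unfold lc
  exact LSeriesSummable.sum fun j _ => lco_summable _ _ (lg_bb (h j) (hh j)) s hs

lemma PL_exp (h : ι → ZI →* ℂ) (hh : ∀ j, UH (h j)) {s : ℂ} (hs : 1 < s.re) :
    PL h s = Complex.exp (LSeries (lc h) s) := by
  unfold PL lc
  rw [LSeries_sum fun j _ => lco_summable _ _ (lg_bb (h j) (hh j)) s hs, Complex.exp_sum]
  refine Finset.prod_congr rfl fun j _ => ?_
  exact F_exp _ _ (lg_bb (h j) (hh j)) (LSeries (bb (h j))) (hs_of (h j) (hh j)) s hs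

lemma PL_deriv (h : ι → ZI →* ℂ) (hh : ∀ j, UH (h j)) {s : ℂ} (hs : 1 < s.re) :
    HasDerivAt (PL h) (-(LSeries (gc h) s * PL h s)) s := by
  have h1 : HasDerivAt (fun z => ∑ j, LSeries (lco (ccf (h j))) z)
      (∑ j, -LSeries (bco (ccf (h j))) s) s :=
    HasDerivAt.fun_sum fun j _ => hasDeriv_lco _ _ (lg_bb (h j) (hh j)) s hs
  have h2 := h1.cexp
  have hU : IsOpen {z : ℂ | 1 < z.re} := isOpen_lt continuous_const Complex.continuous_re
  have e1 : PL h =ᶠ[𝓝 s] fun z => Complex.exp (∑ j, LSeries (lco (ccf (h j))) z) := by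
    filter_upwards [hU.mem_nhds hs] with z hz
    rw [PL_exp h hh hz]
    unfold lc
    rw [LSeries_sum fun j _ => lco_summable _ _ (lg_bb (h j) (hh j)) z hz]
  refine (h2.congr_of_eventuallyEq e1).congr_deriv ?_
  have e2 : PL h s = Complex.exp (∑ j, LSeries (lco (ccf (h j))) s) := e1.self_of_nhds
  rw [← e2]
  unfold gc
  rw [LSeries_sum fun j _ => bco_summable _ _ (lg_bb (h j) (hh j)) s hs, Finset.sum_neg_distrib]
  ring

lemma absc_gc (h : ι → ZI →* ℂ) (hh : ∀ j, UH (h j)) : LSeries.abscissaOfAbsConv (gc h) ≤ 1 := by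
  apply LSeries.abscissaOfAbsConv_le_of_forall_lt_LSeriesSummable
  intro y hy
  exact gc_summable h hh (by simpa using hy)

lemma absc_lc (h : ι → ZI →* ℂ) (hh : ∀ j, UH (h j)) : LSeries.abscissaOfAbsConv (lc h) ≤ 1 := by
  apply LSeries.abscissaOfAbsConv_le_of_forall_lt_LSeriesSummable
  intro y hy
  exact lc_summable h hh (by simpa using hy)

lemma PL_two (h : ι → ZI →* ℂ) (hh : ∀ j, UH (h j)) (hp : ∀ z, 0 ≤ ∑ j, h j z) :
    1 ≤ PL h 2 := by
  have h2 : 1 < (2 : ℂ).re := by norm_num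
  rw [PL_exp h hh h2]
  have h3 : 0 ≤ LSeries (lc h) 2 := by
    have := LSeries.iteratedDeriv_alternating (a := lc h) (fun n => lc_nonneg h hh hp n) (x := 2)
      (by
        refine lt_of_le_of_lt (absc_lc h hh) ?_
        norm_cast) 0
    simpa using this
  have h4 : LSeries (lc h) 2 = (((LSeries (lc h) 2).re : ℝ) : ℂ) := by
    apply Complex.ext
    · simp
    · have := (Complex.nonneg_iff.1 h3).2
      simpa using this.symm
  rw [h4, ← Complex.ofReal_exp]
  have h5 : 0 ≤ (LSeries (lc h) 2).re := (Complex.nonneg_iff.1 h3).1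
  have h6 : (1 : ℝ) ≤ Real.exp (LSeries (lc h) 2).re := Real.one_le_exp h5
  exact_mod_cast h6

lemma PL_diff (h : ι → ZI →* ℂ) (hh : ∀ j, UH (h j)) : DifferentiableOn ℂ (PL h) {z : ℂ | 1 < z.re} :=
  fun _ hs => (PL_deriv h hh hs).differentiableAt.differentiableWithinAt

lemma PL_alt (h : ι → ZI →* ℂ) (hh : ∀ j, UH (h j)) (hp : ∀ z, 0 ≤ ∑ j, h j z) (m : ℕ) :
    0 ≤ (-1 : ℂ) ^ m * iteratedDeriv m (PL h) 2 := by
  have hU : IsOpen {z : ℂ | 1 < z.re} := isOpen_lt continuous_const Complex.continuous_re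
  have h2U : (2 : ℂ) ∈ {z : ℂ | 1 < z.re} := by simp
  refine Pool.Agent.H307R2.alt (G := LSeries (gc h)) ?_ ?_ ?_ ?_ ?_ m
  · exact (PL_diff h hh).analyticAt (hU.mem_nhds h2U)
  · have := LSeries_analyticOnNhd (gc h)
    apply this
    show LSeries.abscissaOfAbsConv (gc h) < ((2 : ℂ).re : EReal)
    refine lt_of_le_of_lt (absc_gc h hh) ?_
    simp
    norm_cast
  · filter_upwards [hU.mem_nhds h2U] with s hs
    exact (PL_deriv h hh hs).deriv
  · exact le_trans zero_le_one (PL_two h hh hp)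
  · intro j
    have := LSeries.iteratedDeriv_alternating (a := gc h) (fun n => gc_nonneg h hh hp n)
      (x := 2) (by
        refine lt_of_le_of_lt (absc_gc h hh) ?_
        norm_cast) j
    simpa using this

lemma PL_ne (h : ι → ZI →* ℂ) (hh : ∀ j, UH (h j)) {s : ℂ} (hs : 1 < s.re) : PL h s ≠ 0 := by
  rw [PL_exp h hh hs]
  exact Complex.exp_ne_zero _

lemma L_ne {h : ZI →* ℂ} (hh : UH h) {s : ℂ} (hs : 1 < s.re) : LSeries (bb h) s ≠ 0 := by
  rw [F_exp _ _ (lg_bb h hh) (LSeries (bb h)) (hs_of h hh) s hs]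
  exact Complex.exp_ne_zero _

end

end Pool.Agent.N531.GNS
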