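import Mathlib
import Pool.Agent.N531.GN.Pos

/-!
# Project GN (helper782), task SIEG (helper531), part 4

Estermann's inequality (abstract version).
-/

set_option autoImplicit false

open Filter Topology Set
open scoped ComplexOrder

namespace Pool.Agent.N531.GNS

open Pool.Agent.N782.GN
open Pool.Agent.H304R3.HK (UH bb)

noncomputable section

lemma key_real (κ b : ℕ → ℝ) (lam B u Kb : ℝ) (hκ : ∀ m, κ m = b m - lam) (hb : ∀ m, 0 ≤ b m)
    (hb0 : 1 ≤ b 0) (hB : ∀ m, |κ m| ≤ B * (4 / 5) ^ m) (hu1 : 1 < u) (hu2 : u ≤ 9 / 8)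
    (hsum : HasSum (fun m => κ m * u ^ m) Kb) (hK : Kb ≤ lam / (u - 1)) (M : ℕ) (hM0 : 0 < M)
    (hM : 20 * B ≤ (10 / 9) ^ M) : 1 / 2 * (u - 1) ≤ lam * u ^ M := by
  have hu0 : 0 < u - 1 := by linarith
  have hB0 : 0 ≤ B := by
    have := hB 0
    have h2 := abs_nonneg (κ 0)
    simp at this
    linarith
  have h1 := (hasSum_nat_add_iff' M).2 hsum
  have h2 : HasSum (fun n : ℕ => -(B * (9 / 10) ^ M * (9 / 10 : ℝ) ^ n))
      (-(B * (9 / 10) ^ M * (1 - 9 / 10)⁻¹)) :=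
    ((hasSum_geometric_of_lt_one (by norm_num) (by norm_num)).mul_left _).neg
  have h3 : -(B * (9 / 10) ^ M * (1 - 9 / 10)⁻¹) ≤ Kb - ∑ i ∈ Finset.range M, κ i * u ^ i := by
    refine hasSum_le ?_ h2 h1
    intro n
    have h4 : |κ (n + M) * u ^ (n + M)| ≤ B * (9 / 10) ^ M * (9 / 10 : ℝ) ^ n := by
      rw [abs_mul, abs_of_pos (pow_pos (by linarith : 0 < u) _)]
      calc |κ (n + M)| * u ^ (n + M) ≤ B * (4 / 5) ^ (n + M) * (9 / 8) ^ (n + M) := by
            refine mul_le_mul (hB _) (pow_le_pow_left₀ (by linarith) hu2 _) (by positivity)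
              (by positivity)
        _ = B * (9 / 10) ^ (n + M) := by
            rw [mul_assoc, ← mul_pow]; norm_num
        _ = B * (9 / 10) ^ M * (9 / 10 : ℝ) ^ n := by rw [pow_add]; ring
    have h5 := neg_abs_le (κ (n + M) * u ^ (n + M))
    linarith
  have h4 : B * (9 / 10) ^ M * (1 - 9 / 10)⁻¹ ≤ 1 / 2 := by
    have e : (9 / 10 : ℝ) ^ M = ((10 / 9 : ℝ) ^ M)⁻¹ := by rw [← inv_pow]; norm_num
    have hp : (0 : ℝ) < (10 / 9) ^ M := by positivity
    rw [e]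
    have e2 : B * ((10 / 9 : ℝ) ^ M)⁻¹ * (1 - 9 / 10)⁻¹ = (10 * B) / (10 / 9) ^ M := by
      field_simp
      norm_num
    rw [e2, div_le_iff₀ hp]
    linarith
  have h5 : 1 ≤ ∑ i ∈ Finset.range M, b i * u ^ i := by
    have h6 : b 0 * u ^ 0 ≤ ∑ i ∈ Finset.range M, b i * u ^ i := by
      refine Finset.single_le_sum (f := fun i => b i * u ^ i) ?_ (Finset.mem_range.2 hM0)
      intro i _
      exact mul_nonneg (hb i) (by positivity)
    simp at h6
    linarith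
  have h6 : ∑ i ∈ Finset.range M, κ i * u ^ i =
      ∑ i ∈ Finset.range M, b i * u ^ i - lam * ((u ^ M - 1) / (u - 1)) := by
    rw [← geom_sum_eq hu1.ne' M, Finset.mul_sum, ← Finset.sum_sub_distrib]
    refine Finset.sum_congr rfl fun i _ => ?_
    rw [hκ]; ring
  have h7 : 1 / 2 - lam * ((u ^ M - 1) / (u - 1)) ≤ lam / (u - 1) := by linarith
  have h8 : (1 / 2 - lam * ((u ^ M - 1) / (u - 1))) * (u - 1) ≤ lam := by
    rwa [← le_div_iff₀ hu0]
  have h9 : (1 / 2 - lam * ((u ^ M - 1) / (u - 1))) * (u - 1) =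
      1 / 2 * (u - 1) - lam * (u ^ M - 1) := by
    field_simp
  rw [h9] at h8
  linarith

/-- choice of `M` -/
lemma choose_M {X u : ℝ} (hX : 1 ≤ X) (hu1 : 1 < u) (hu2 : u ≤ 9 / 8) : ∃ M : ℕ, 0 < M ∧
    X ≤ (10 / 9) ^ M ∧ u ^ M ≤ 2 * X ^ (10 * (u - 1)) := by
  have hX0 : 0 < X := by linarith
  have hlog : 0 ≤ Real.log X := Real.log_nonneg hX
  refine ⟨⌈10 * Real.log X⌉₊ + 1, by omega, ?_, ?_⟩
  · have h1 : 10 * Real.log X ≤ (⌈10 * Real.log X⌉₊ : ℝ) := Nat.le_ceil _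
    have h2 : Real.exp (1 / 10) ≤ 10 / 9 := by
      have h3 : 1 - 1 / 10 ≤ Real.exp (-(1 / 10)) := by
        have := Real.add_one_le_exp (-(1 / 10) : ℝ)
        linarith
      rw [Real.exp_neg] at h3
      have h4 : (0 : ℝ) < Real.exp (1 / 10) := Real.exp_pos _
      have h5 : (9 / 10 : ℝ) ≤ (Real.exp (1 / 10))⁻¹ := by linarith
      rw [le_inv_comm₀ (by norm_num) h4] at h5
      linarith
    calc X = Real.exp (Real.log X) := (Real.exp_log hX0).symm
      _ ≤ Real.exp ((⌈10 * Real.log X⌉₊ + 1 : ℕ) * (1 / 10)) := by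
          apply Real.exp_le_exp.2
          push_cast
          linarith
      _ = Real.exp (1 / 10) ^ (⌈10 * Real.log X⌉₊ + 1) := by rw [Real.exp_nat_mul]
      _ ≤ (10 / 9) ^ (⌈10 * Real.log X⌉₊ + 1) := pow_le_pow_left₀ (Real.exp_pos _).le h2 _
  · have h1 : (⌈10 * Real.log X⌉₊ : ℝ) ≤ 10 * Real.log X + 1 :=
      (Nat.ceil_lt_add_one (by positivity)).le
    have hu0 : 0 ≤ u - 1 := by linarith
    have h2 : u ≤ Real.exp (u - 1) := by
      have := Real.add_one_le_exp (u - 1)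
      linarith
    calc u ^ (⌈10 * Real.log X⌉₊ + 1) ≤ Real.exp (u - 1) ^ (⌈10 * Real.log X⌉₊ + 1) :=
          pow_le_pow_left₀ (by linarith) h2 _
      _ = Real.exp ((⌈10 * Real.log X⌉₊ + 1 : ℕ) * (u - 1)) := by rw [Real.exp_nat_mul]
      _ ≤ Real.exp ((10 * Real.log X + 2) * (u - 1)) := by
          apply Real.exp_le_exp.2
          push_cast
          nlinarith
      _ = Real.exp (2 * (u - 1)) * X ^ (10 * (u - 1)) := by
          rw [Real.rpow_def_of_pos hX0, ← Real.exp_add]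
          congr 1
          ring
      _ ≤ 2 * X ^ (10 * (u - 1)) := by
          refine mul_le_mul_of_nonneg_right ?_ (by positivity)
          have h3 : 1 - 1 / 4 ≤ Real.exp (-(1 / 4)) := by
            have := Real.add_one_le_exp (-(1 / 4) : ℝ)
            linarith
          rw [Real.exp_neg] at h3
          have h4 : (0 : ℝ) < Real.exp (1 / 4) := Real.exp_pos _
          have h5 : (3 / 4 : ℝ) ≤ (Real.exp (1 / 4))⁻¹ := by linarith
          rw [le_inv_comm₀ (by norm_num) h4] at h5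
          calc Real.exp (2 * (u - 1)) ≤ Real.exp (1 / 4) := Real.exp_le_exp.2 (by linarith)
            _ ≤ 2 := by linarith

/-- data for Estermann's inequality -/
structure Est {ι : Type} [Fintype ι] (h : ι → ZI →* ℂ) (κ A D : ℝ) (Z H : ℂ → ℂ) : Prop where
  hh : ∀ j, UH (h j)
  hp : ∀ z, 0 ≤ ∑ j, h j z
  κ1 : 1 / 17 ≤ κ
  A0 : 0 ≤ A
  D1 : 1 ≤ D
  Zd : ∀ s : ℂ, 1 / 2 < s.re → DifferentiableAt ℂ Z s
  Zb : ∀ s : ℂ, 3 / 4 ≤ s.re → ‖s‖ ≤ 13 / 4 → ‖Z s‖ ≤ 13 * A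
  Hd : ∀ s : ℂ, 1 / 2 < s.re → DifferentiableAt ℂ H s
  Hb : ∀ s : ℂ, 3 / 4 ≤ s.re → ‖s‖ ≤ 13 / 4 → ‖H s‖ ≤ D
  F : ∀ s : ℂ, 1 < s.re → PL h s = (κ * s / (s - 1) + Z s) * H s

section

variable {ι : Type} [Fintype ι] {h : ι → ZI →* ℂ} {κ A D : ℝ} {Z H : ℂ → ℂ}

/-- `(s-1) F(s)` -/
def PP (κ : ℝ) (Z H : ℂ → ℂ) (s : ℂ) : ℂ := (κ * s + (s - 1) * Z s) * H s

/-- `F(s) - λ/(s-1)` -/
def KK (κ : ℝ) (Z H : ℂ → ℂ) : ℂ → ℂ := dslope (PP κ Z H) 1

/-- `F` -/
def FF (κ : ℝ) (Z H : ℂ → ℂ) (s : ℂ) : ℂ := (κ * s / (s - 1) + Z s) * H s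

/-- the half plane -/
def U : Set ℂ := {s : ℂ | 1 / 2 < s.re}

lemma U_open : IsOpen U := isOpen_lt continuous_const Complex.continuous_re

lemma one_U : (1 : ℂ) ∈ U := by
  show (1 / 2 : ℝ) < (1 : ℂ).re
  norm_num

lemma PP_diff (E : Est h κ A D Z H) : DifferentiableOn ℂ (PP κ Z H) U := by
  intro s hs
  have hs' : 1 / 2 < s.re := hs
  apply DifferentiableAt.differentiableWithinAt
  unfold PP
  exact (((differentiableAt_id.const_mul (κ : ℂ))).add
    ((differentiableAt_id.sub_const 1).mul (E.Zd s hs'))).mul (E.Hd s hs')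

lemma KK_diff (E : Est h κ A D Z H) : DifferentiableOn ℂ (KK κ Z H) U := by
  unfold KK
  exact (Complex.differentiableOn_dslope (U_open.mem_nhds one_U)).2 (PP_diff E)

lemma PP_one : PP κ Z H 1 = κ * H 1 := by
  unfold PP
  simp

lemma PP_ne {s : ℂ} (hs : s ≠ 1) : PP κ Z H s = (s - 1) * FF κ Z H s := by
  have : s - 1 ≠ 0 := sub_ne_zero.2 hs
  unfold PP FF
  field_simp

lemma KK_ne {s : ℂ} (hs : s ≠ 1) : KK κ Z H s = FF κ Z H s - κ * H 1 * (1 * s - 1)⁻¹ := by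
  unfold KK
  rw [dslope_of_ne _ hs, slope_def_field, PP_one, PP_ne hs]
  have : s - 1 ≠ 0 := sub_ne_zero.2 hs
  field_simp

lemma two_nhds : {z : ℂ | 1 < z.re} ∈ 𝓝 (2 : ℂ) :=
  (isOpen_lt continuous_const Complex.continuous_re).mem_nhds (by
    show (1 : ℝ) < (2 : ℂ).re
    norm_num)

lemma ne_one_of {s : ℂ} (hs : 1 < s.re) : s ≠ 1 := by
  intro h
  rw [h] at hs
  simp at hs

lemma iteratedDeriv_inv_two (m : ℕ) :
    iteratedDeriv m (fun s : ℂ => (1 * s - 1)⁻¹) 2 = (-1) ^ m * m.factorial := by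
  rw [iteratedDeriv_eq_iterate, iter_deriv_inv_linear_sub]
  norm_num

lemma KK_iteratedDeriv (E : Est h κ A D Z H) (m : ℕ) : iteratedDeriv m (KK κ Z H) 2 =
    iteratedDeriv m (PL h) 2 - κ * H 1 * ((-1) ^ m * m.factorial) := by
  have h1 : KK κ Z H =ᶠ[𝓝 (2 : ℂ)] fun s => PL h s - κ * H 1 * (1 * s - 1)⁻¹ := by
    filter_upwards [two_nhds] with s hs
    have hs' : 1 < s.re := hs
    rw [KK_ne (ne_one_of hs'), E.F s hs']
    rfl
  rw [h1.iteratedDeriv_eq m]
  have h2 : ContDiffAt ℂ m (fun s : ℂ => (1 * s - 1)⁻¹) 2 := by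
    apply ContDiffAt.inv
    · fun_prop
    · norm_num
  have h3 : AnalyticAt ℂ (PL h) 2 := (PL_diff h E.hh).analyticAt two_nhds
  rw [iteratedDeriv_fun_sub h3.contDiffAt (contDiffAt_const.mul h2)]
  congr 1
  have h4 := iteratedDeriv_const_mul_field (n := m) (x := (2 : ℂ)) (κ * H 1)
    (fun s : ℂ => (1 * s - 1)⁻¹)
  rw [h4, iteratedDeriv_inv_two]

lemma KK_sphere (E : Est h κ A D Z H) {s : ℂ} (hs : s ∈ Metric.sphere (2 : ℂ) (5 / 4)) :
    ‖KK κ Z H s‖ ≤ (17 * κ + 13 * A) * D := by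
  rw [mem_sphere_iff_norm] at hs
  have hκ := E.κ1
  have hκ0 : 0 < κ := by linarith
  have hA := E.A0
  have hD := E.D1
  have h1 : 3 / 4 ≤ s.re := by
    have := Complex.abs_re_le_norm (s - 2)
    rw [hs] at this
    have h2 := (abs_le.1 this).1
    simp at h2
    linarith
  have h2 : ‖s‖ ≤ 13 / 4 := by
    calc ‖s‖ = ‖(s - 2) + 2‖ := by rw [sub_add_cancel]
      _ ≤ ‖s - 2‖ + ‖(2 : ℂ)‖ := norm_add_le _ _
      _ = 13 / 4 := by rw [hs]; norm_num
  have h3 : 1 / 4 ≤ ‖s - 1‖ := by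
    have h4 : ‖s - 2‖ ≤ ‖s - 1‖ + ‖(1 : ℂ)‖ := by
      have e : s - 2 = (s - 1) - 1 := by ring
      rw [e]
      exact norm_sub_le _ _
    rw [hs, norm_one] at h4
    linarith
  have hne : s ≠ 1 := by
    intro h
    rw [h] at h3
    simp at h3
    linarith
  rw [KK_ne hne]
  have a1 := E.Zb s h1 h2
  have a2 := E.Hb s h1 h2
  have a3 := E.Hb 1 (by norm_num) (by norm_num)
  have a4 : ‖(1 * s - 1)⁻¹‖ ≤ 4 := by
    rw [one_mul, norm_inv, inv_le_comm₀ (by linarith) (by norm_num)]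
    linarith
  have a5 : ‖(κ : ℂ) * s / (s - 1)‖ ≤ 13 * κ := by
    rw [norm_div, norm_mul, Complex.norm_real, Real.norm_of_nonneg hκ0.le,
      div_le_iff₀ (by linarith)]
    nlinarith
  calc ‖FF κ Z H s - κ * H 1 * (1 * s - 1)⁻¹‖
      ≤ ‖FF κ Z H s‖ + ‖κ * H 1 * (1 * s - 1)⁻¹‖ := norm_sub_le _ _
    _ ≤ (13 * κ + 13 * A) * D + (κ * D) * 4 := by
        apply add_le_add
        · unfold FF
          rw [norm_mul]
          exact mul_le_mul ((norm_add_le _ _).trans (add_le_add a5 a1)) a2 (norm_nonneg _)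
            (by positivity)
        · rw [norm_mul, norm_mul, Complex.norm_real, Real.norm_of_nonneg hκ0.le]
          exact mul_le_mul (mul_le_mul_of_nonneg_left a3 hκ0.le) a4 (norm_nonneg _)
            (by positivity)
    _ = (17 * κ + 13 * A) * D := by ring

lemma closedBall_U : Metric.closedBall (2 : ℂ) (5 / 4) ⊆ U := by
  intro s hs
  rw [mem_closedBall_iff_norm] at hs
  show (1 / 2 : ℝ) < s.re
  have := (Complex.abs_re_le_norm (s - 2)).trans hs
  have h2 := (abs_le.1 this).1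
  simp at h2
  linarith

/-- **Estermann's inequality** -/
theorem key (E : Est h κ A D Z H) {β : ℝ} (hβ1 : 7 / 8 ≤ β) (hβ2 : β < 1)
    (hF : (FF κ Z H (β : ℂ)).re ≤ 0) :
    0 < κ * (H 1).re ∧
    (1 - β) / 4 ≤ κ * (H 1).re * (20 * ((17 * κ + 13 * A) * D)) ^ (10 * (1 - β)) := by
  have hκ := E.κ1
  have hκ0 : 0 < κ := by linarith
  have hA := E.A0
  have hD := E.D1
  set B : ℝ := (17 * κ + 13 * A) * D with hB
  have hB1 : 1 ≤ B := by
    rw [hB]
    nlinarith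
  have hX : 1 ≤ 20 * B := by linarith
  set u : ℝ := 2 - β with hu
  have hu1 : 1 < u := by rw [hu]; linarith
  have hu2 : u ≤ 9 / 8 := by rw [hu]; linarith
  obtain ⟨M, hM0, hM1, hM2⟩ := choose_M hX hu1 hu2
  set kp : ℕ → ℝ := fun m => ((-1) ^ m * iteratedDeriv m (KK κ Z H) 2 / (m.factorial : ℂ)).re
    with hkp
  set b : ℕ → ℝ := fun m => ((-1) ^ m * iteratedDeriv m (PL h) 2 / (m.factorial : ℂ)).re with hb
  have hsq : ∀ m : ℕ, ((-1 : ℂ) ^ m) * (-1) ^ m = 1 := by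
    intro m
    rw [← mul_pow]; norm_num
  have e1 : ∀ m, kp m = b m - (κ * H 1).re := by
    intro m
    simp only [hkp, hb]
    rw [KK_iteratedDeriv E, ← Complex.sub_re]
    congr 1
    have hf : (m.factorial : ℂ) ≠ 0 := by exact_mod_cast m.factorial_ne_zero
    field_simp
    have := hsq m
    linear_combination (-(κ * H 1) * (m.factorial : ℂ)) * this
  have e2 : ∀ m, 0 ≤ b m := by
    intro m
    simp only [hb]
    have h3 := PL_alt h E.hh E.hp m
    have h4 : ((-1 : ℂ) ^ m * iteratedDeriv m (PL h) 2 / (m.factorial : ℂ)).re =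
        ((-1 : ℂ) ^ m * iteratedDeriv m (PL h) 2).re / (m.factorial : ℝ) := by
      rw [← Complex.ofReal_natCast, Complex.div_ofReal_re]
    rw [h4]
    have h5 : 0 ≤ ((-1 : ℂ) ^ m * iteratedDeriv m (PL h) 2).re := (Complex.nonneg_iff.1 h3).1
    positivity
  have e3 : 1 ≤ b 0 := by
    have h3 := PL_two h E.hh E.hp
    have h4 := (Complex.le_def.1 h3).1
    simp only [hb]
    simpa using h4
  have hdc : DiffContOnCl ℂ (KK κ Z H) (Metric.ball (2 : ℂ) (5 / 4)) := by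
    apply DifferentiableOn.diffContOnCl
    rw [closure_ball _ (by norm_num)]
    exact (KK_diff E).mono closedBall_U
  have e4 : ∀ m, |kp m| ≤ B * (4 / 5) ^ m := by
    intro m
    simp only [hkp]
    refine (Complex.abs_re_le_norm _).trans ?_
    rw [norm_div, norm_mul, norm_pow, norm_neg, norm_one, one_pow, one_mul, Complex.norm_natCast]
    have h3 := Complex.norm_iteratedDeriv_le_of_forall_mem_sphere_norm_le (c := (2 : ℂ))
      (R := 5 / 4) (C := B) (f := KK κ Z H) m (by norm_num) hdc (fun z hz => KK_sphere E hz)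
    have hf : (0 : ℝ) < (m.factorial : ℝ) := by exact_mod_cast m.factorial_pos
    rw [div_le_iff₀ hf]
    calc ‖iteratedDeriv m (KK κ Z H) 2‖ ≤ m.factorial * B / (5 / 4) ^ m := h3
      _ = B * (4 / 5) ^ m * m.factorial := by
          have : (4 / 5 : ℝ) ^ m = ((5 / 4 : ℝ) ^ m)⁻¹ := by rw [← inv_pow]; norm_num
          rw [this]
          ring
  have hβb : (β : ℂ) ∈ Metric.ball (2 : ℂ) (5 / 4) := by
    rw [mem_ball_iff_norm]
    have : (β : ℂ) - 2 = ((β - 2 : ℝ) : ℂ) := by push_cast; ring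
    rw [this, Complex.norm_real, Real.norm_eq_abs, abs_lt]
    constructor <;> linarith
  have e5 : HasSum (fun m => kp m * u ^ m) (KK κ Z H (β : ℂ)).re := by
    have h3 := Complex.hasSum_taylorSeries_on_ball (f := KK κ Z H) (c := (2 : ℂ)) (r := 5 / 4)
      ((KK_diff E).mono (Metric.ball_subset_closedBall.trans closedBall_U)) hβb
    have h4 := Complex.hasSum_re h3
    convert h4 using 2 with m
    simp only [hkp, smul_eq_mul]
    have h5 : ((β : ℂ) - 2) ^ m = (-1) ^ m * ((u ^ m : ℝ) : ℂ) := by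
      have : (β : ℂ) - 2 = (-1) * ((u : ℝ) : ℂ) := by
        rw [hu]; push_cast; ring
      rw [this, mul_pow]
      push_cast
      rfl
    rw [h5]
    have h6 : (m.factorial : ℂ)⁻¹ * ((-1) ^ m * ((u ^ m : ℝ) : ℂ) *
        iteratedDeriv m (KK κ Z H) 2) = ((u ^ m : ℝ) : ℂ) *
        ((-1) ^ m * iteratedDeriv m (KK κ Z H) 2 / (m.factorial : ℂ)) := by
      rw [div_eq_mul_inv]; ring
    rw [h6, Complex.re_ofReal_mul]
    ring
  have e6 : (KK κ Z H (β : ℂ)).re ≤ (κ * H 1).re / (u - 1) := by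
    have hne : (β : ℂ) ≠ 1 := by
      intro h
      have : β = 1 := by exact_mod_cast h
      linarith
    rw [KK_ne hne]
    have h3 : (1 * (β : ℂ) - 1)⁻¹ = (((-(1 / (u - 1))) : ℝ) : ℂ) := by
      have h5 : u - 1 ≠ 0 := by linarith
      have h6 : (β : ℂ) - 1 = -((u - 1 : ℝ) : ℂ) := by rw [hu]; push_cast; ring
      rw [one_mul, h6, inv_neg]
      push_cast
      rw [one_div]
    rw [h3, Complex.sub_re, Complex.re_mul_ofReal]
    have : (κ * H 1).re * -(1 / (u - 1)) = - ((κ * H 1).re / (u - 1)) := by ring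
    rw [this]
    linarith
  have h3 := key_real kp b (κ * H 1).re B u _ e1 e2 e3 e4 hu1 hu2 e5 e6 M hM0 hM1
  rw [Complex.re_ofReal_mul] at h3
  have hu0 : 0 < u := by linarith
  have huM : 0 < u ^ M := by positivity
  have hlam : 0 < κ * (H 1).re := by
    by_contra hneg
    push Not at hneg
    have : κ * (H 1).re * u ^ M ≤ 0 := mul_nonpos_of_nonpos_of_nonneg hneg huM.le
    linarith
  refine ⟨hlam, ?_⟩
  have h4 : 1 / 2 * (u - 1) ≤ κ * (H 1).re * (2 * (20 * B) ^ (10 * (u - 1))) :=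
    h3.trans (mul_le_mul_of_nonneg_left hM2 hlam.le)
  have h5 : 1 - β = u - 1 := by rw [hu]; ring
  rw [h5]
  linarith

end

end

end Pool.Agent.N531.GNS
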