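import Mathlib
import Pool.Agent.N531.GN.Key

/-!
# Project GN (helper782), task SIEG (helper531), part 5

Comparison of the L-functions of characters which are induced by the same primitive character.
-/

set_option autoImplicit false

open Filter Topology Set

namespace Pool.Agent.N531.GNS

open Pool.Agent.N782.GN
open Pool.Agent.H304R3.HK (UH bb)
open Pool.Agent.H304R3.HK.M4 (T mem_T bb_eq h1 h1_of h1i norm_nn norm_zero_iff)

noncomputable section

/-- completely multiplicative functions -/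
structure CM (g : ZI → ℂ) : Prop where
  mul : ∀ a b, g (a * b) = g a * g b
  ub : ∀ a, ‖g a‖ ≤ 1

lemma coprime_iff {z p : ZI} (hp : Prime p) : IsCoprime z p ↔ ¬ p ∣ z := by
  rw [isCoprime_comm]
  exact hp.irreducible.coprime_iff_not_dvd

lemma natAbs_mul (a b : ZI) : (a * b).norm.natAbs = a.norm.natAbs * b.norm.natAbs := by
  rw [Zsqrtd.norm_mul, Int.natAbs_mul]

lemma mem_T' {n : ℕ} {z : ZI} : z ∈ T n ↔ z.norm.natAbs = n := by
  rw [mem_T]
  constructor
  · intro h; rw [h]; simp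
  · intro h; rw [norm_nat, h]

lemma two_le_norm {p : ZI} (hp : Prime p) : 2 ≤ p.norm.natAbs := by
  have h1 := natAbs_norm_pos hp.ne_zero
  have h2 : p.norm.natAbs ≠ 1 := by
    intro h
    exact hp.not_unit (Zsqrtd.isUnit_iff_norm_isUnit _ |>.2 (Int.isUnit_iff_natAbs_eq.2 h))
  omega

open Classical in
/-- removal of a prime -/
def rm (g : ZI → ℂ) (m : ZI) : ZI → ℂ := fun z => if IsCoprime z m then g z else 0

lemma bb_rem {g : ZI → ℂ} (hg : CM g) {p : ZI} (hp : Prime p) (n : ℕ) :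
    bb (rm g p) n = bb g n -
      g p * (if p.norm.natAbs ∣ n then bb g (n / p.norm.natAbs) else 0) := by
  classical
  set N := p.norm.natAbs with hN
  have hN2 := two_le_norm hp
  rw [← hN] at hN2
  rw [bb_eq, bb_eq g n]
  have e1 : ∀ z, rm g p z = g z - (if p ∣ z then g z else 0) := by
    intro z
    unfold rm
    by_cases h : p ∣ z
    · rw [if_neg (by rw [coprime_iff hp]; simpa using h), if_pos h, sub_self]
    · rw [if_pos (by rwa [coprime_iff hp]), if_neg h, sub_zero]
  simp_rw [e1]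
  rw [Finset.sum_sub_distrib, ← Finset.sum_filter, mul_sub]
  congr 1
  by_cases h : N ∣ n
  · rw [if_pos h]
    obtain ⟨m, rfl⟩ := h
    rw [Nat.mul_div_cancel_left m (by omega), bb_eq]
    have e2 : (T (N * m)).filter (fun z => p ∣ z) = (T m).image (fun w => p * w) := by
      ext z
      rw [Finset.mem_filter, Finset.mem_image, mem_T']
      constructor
      · rintro ⟨h1, w, rfl⟩
        refine ⟨w, ?_, rfl⟩
        rw [mem_T']
        rw [natAbs_mul] at h1
        exact Nat.eq_of_mul_eq_mul_left (by omega) h1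
      · rintro ⟨w, hw, rfl⟩
        rw [mem_T'] at hw
        exact ⟨by rw [natAbs_mul, hw], dvd_mul_right _ _⟩
    rw [e2, Finset.sum_image]
    · simp_rw [hg.mul]
      rw [← Finset.mul_sum]
      ring
    · intro a _ b _ hab
      exact mul_left_cancel₀ hp.ne_zero hab
  · rw [if_neg h, mul_zero]
    rw [Finset.filter_false_of_mem, Finset.sum_empty, mul_zero]
    rintro z hz ⟨w, rfl⟩
    rw [mem_T', natAbs_mul] at hz
    exact h ⟨_, hz.symm⟩

lemma hs_rem {g : ZI → ℂ} (hg : CM g) {p : ZI} (hp : Prime p) {s F : ℂ}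
    (hF : HasSum (fun n : ℕ => bb g n * (n : ℂ) ^ (-s)) F) :
    HasSum (fun n : ℕ => bb (rm g p) n * (n : ℂ) ^ (-s))
      ((1 - g p * ((p.norm.natAbs : ℕ) : ℂ) ^ (-s)) * F) := by
  set N := p.norm.natAbs with hN
  have hN2 := two_le_norm hp
  rw [← hN] at hN2
  set f : ℕ → ℂ := fun n => (if N ∣ n then bb g (n / N) else 0) * (n : ℂ) ^ (-s) with hf
  have hinj : Function.Injective (fun m : ℕ => N * m) := by
    intro a b hab
    exact Nat.eq_of_mul_eq_mul_left (by omega) hab
  have h1 : HasSum (f ∘ fun m : ℕ => N * m) ((N : ℂ) ^ (-s) * F) := by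
    have h2 := hF.mul_left ((N : ℂ) ^ (-s))
    refine h2.congr_fun ?_ |> fun h => h
    intro m
    simp only [hf, Function.comp]
    rw [if_pos (dvd_mul_right _ _), Nat.mul_div_cancel_left m (by omega), Nat.cast_mul,
      Complex.natCast_mul_natCast_cpow]
    ring
  have h2 : HasSum f ((N : ℂ) ^ (-s) * F) := by
    refine (hinj.hasSum_iff ?_).1 h1
    intro n hn
    simp only [hf]
    rw [if_neg, zero_mul]
    rintro ⟨m, rfl⟩
    exact hn ⟨m, rfl⟩
  have h3 := hF.sub (h2.mul_left (g p))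
  have e : (1 - g p * (N : ℂ) ^ (-s)) * F = F - g p * ((N : ℂ) ^ (-s) * F) := by ring
  rw [e]
  refine h3.congr_fun ?_ |> fun h => h
  intro n
  rw [bb_rem hg hp n, ← hN]
  simp only [hf]
  ring

lemma CM_of {h : ZI →* ℂ} (hh : UH h) : CM h := ⟨fun a b => map_mul h a b, hh.hb⟩

lemma CM_rm {g : ZI → ℂ} (hg : CM g) (m : ZI) : CM (rm g m) := by
  constructor
  · intro a b
    unfold rm
    by_cases ha : IsCoprime a m
    · by_cases hb : IsCoprime b m
      · rw [if_pos ha, if_pos hb, if_pos (ha.mul_left hb), hg.mul]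
      · rw [if_neg hb, mul_zero, if_neg]
        intro h
        exact hb (IsCoprime.mul_left_iff.1 h).2
    · rw [if_neg ha, zero_mul, if_neg]
      intro h
      exact ha (IsCoprime.mul_left_iff.1 h).1
  · intro a
    unfold rm
    split_ifs
    · exact hg.ub a
    · rw [norm_zero]; exact zero_le_one

theorem rem {h : ZI →* ℂ} (hh : UH h) (m : ZI) : m ≠ 0 → ∃ E : ℂ → ℂ, Differentiable ℂ E ∧
    (∀ s : ℂ, 0 < s.re → E s ≠ 0) ∧ ∀ s : ℂ, 1 < s.re →
      HasSum (fun n : ℕ => bb (rm h m) n * (n : ℂ) ^ (-s)) (E s * LSeries (bb h) s) := by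
  induction m using UniqueFactorizationMonoid.induction_on_prime with
  | h₁ => intro h; exact absurd rfl h
  | h₂ m hm =>
    intro _
    refine ⟨fun _ => 1, differentiable_const _, fun s _ => one_ne_zero, ?_⟩
    intro s hs
    have e : rm h m = h := by
      funext z
      unfold rm
      rw [if_pos]
      exact isCoprime_one_right.of_isCoprime_of_dvd_right (hm.dvd)
    rw [e, one_mul]
    exact hs_of h hh s hs
  | h₃ a p ha hp ih =>
    intro _
    obtain ⟨E, hE1, hE2, hE3⟩ := ih ha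
    have hN2 := two_le_norm hp
    have hN0 : ((p.norm.natAbs : ℕ) : ℂ) ≠ 0 := by
      have : p.norm.natAbs ≠ 0 := by omega
      exact_mod_cast this
    refine ⟨fun s => (1 - rm h a p * ((p.norm.natAbs : ℕ) : ℂ) ^ (-s)) * E s, ?_, ?_, ?_⟩
    · refine Differentiable.mul ?_ hE1
      refine (differentiable_const _).sub ((differentiable_const _).mul ?_)
      exact (differentiable_id.neg).const_cpow (Or.inl hN0)
    · intro s hs
      refine mul_ne_zero ?_ (hE2 s hs)
      intro h0
      have h1 : rm h a p * ((p.norm.natAbs : ℕ) : ℂ) ^ (-s) = 1 := by linear_combination -h0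
      have h2 : ‖rm h a p * ((p.norm.natAbs : ℕ) : ℂ) ^ (-s)‖ < 1 := by
        rw [norm_mul, Complex.norm_natCast_cpow_of_pos (by omega)]
        have h3 : ((p.norm.natAbs : ℕ) : ℝ) ^ (-s).re < 1 := by
          apply Real.rpow_lt_one_of_one_lt_of_neg
          · have : 1 < p.norm.natAbs := by omega
            exact_mod_cast this
          · simpa using hs
        have h4 := (CM_rm (CM_of hh) a).ub p
        have h5 : 0 ≤ ((p.norm.natAbs : ℕ) : ℝ) ^ (-s).re := by positivity
        nlinarith [norm_nonneg (rm h a p)]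
      rw [h1, norm_one] at h2
      exact lt_irrefl _ h2
    · intro s hs
      have h1 := hs_rem (CM_rm (CM_of hh) a) hp (hE3 s hs)
      have e : rm h (p * a) = rm (rm h a) p := by
        funext z
        unfold rm
        by_cases h1 : IsCoprime z p
        · by_cases h2 : IsCoprime z a
          · rw [if_pos h1, if_pos h2, if_pos (h1.mul_right h2)]
          · rw [if_pos h1, if_neg h2, if_neg]
            intro h
            exact h2 (IsCoprime.mul_right_iff.1 h).2
        · rw [if_neg h1, if_neg]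
          intro h
          exact h1 (IsCoprime.mul_right_iff.1 h).1
      rw [e, mul_assoc]
      exact h1

/-- real values -/
lemma chi_vals {q : ℕ} {χ : ZI →* ℂ} (hχ : RChi q χ) {a : ZI} (ha : IsCoprime a ((q : ℕ) : ZI)) :
    χ a = 1 ∨ χ a = -1 := by
  have h1 := hχ.chi.nrm a ha
  have h2 := hχ.real a
  have h3 : χ a = (((χ a).re : ℝ) : ℂ) := by
    apply Complex.ext
    · simp
    · simpa using h2
  rw [h3, Complex.norm_real, Real.norm_eq_abs] at h1
  rcases (abs_eq zero_le_one).1 h1 with h | h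
  · left; rw [h3, h]; simp
  · right; rw [h3, h]; simp

lemma Cf_eq0 {b : ℕ → ℂ} {A : ℝ} (H : Reg b 0 A) {s : ℂ} (hs : 1 < s.re) :
    LSeries b s = Cf b 0 s := by
  rw [Cf_eq H hs]
  simp

theorem cmp {C : ℝ} (hC : ELC C) {q1 q2 : ℕ} (hq1 : 1 ≤ q1) (hq2 : 1 ≤ q2) {χ1 χ2 : ZI →* ℂ}
    (hχ1 : RChi q1 χ1) (hχ2 : RChi q2 χ2)
    (hpr : ∀ a : ZI, IsCoprime a ((q1 : ℕ) : ZI) → IsCoprime a ((q2 : ℕ) : ZI) → χ1 a * χ2 a = 1)
    {β : ℂ} (hβ : 1 / 2 < β.re) (h0 : Cf (bb χ1) 0 β = 0) : Cf (bb χ2) 0 β = 0 := by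
  have hq1' : ((q1 : ℕ) : ZI) ≠ 0 := by
    have : q1 ≠ 0 := by omega
    exact_mod_cast this
  have hq2' : ((q2 : ℕ) : ZI) ≠ 0 := by
    have : q2 ≠ 0 := by omega
    exact_mod_cast this
  obtain ⟨E1, a1, b1, c1⟩ := rem (UH_of hχ1) ((q2 : ℕ) : ZI) hq2'
  obtain ⟨E2, a2, b2, c2⟩ := rem (UH_of hχ2) ((q1 : ℕ) : ZI) hq1'
  have R1 := Reg_chi hC hq1 hχ1
  have R2 := Reg_chi hC hq2 hχ2
  have e : rm χ1 ((q2 : ℕ) : ZI) = rm χ2 ((q1 : ℕ) : ZI) := by
    funext z
    unfold rm
    by_cases h1 : IsCoprime z ((q1 : ℕ) : ZI)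
    · by_cases h2 : IsCoprime z ((q2 : ℕ) : ZI)
      · rw [if_pos h1, if_pos h2]
        have h3 := hpr z h1 h2
        rcases chi_vals hχ2 h2 with h4 | h4
        · rw [h4] at h3 ⊢
          simpa using h3
        · rw [h4] at h3 ⊢
          linear_combination -h3
      · rw [if_neg h2, if_pos h1]
        by_contra h3
        exact h2 ((hχ2.chi.supp z).1 (fun h => h3 h.symm))
    · rw [if_neg h1]
      split_ifs with h2
      · by_contra h3
        exact h1 ((hχ1.chi.supp z).1 h3)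
      · rfl
  have hU : IsOpen {s : ℂ | 1 / 2 < s.re} := isOpen_lt continuous_const Complex.continuous_re
  have hpc : IsPreconnected {s : ℂ | 1 / 2 < s.re} := (convex_halfSpace_re_gt (1 / 2)).isPreconnected
  have d1 : AnalyticOnNhd ℂ (fun s => E1 s * Cf (bb χ1) 0 s) {s : ℂ | 1 / 2 < s.re} := by
    apply DifferentiableOn.analyticOnNhd _ hU
    intro s hs
    exact ((a1 s).mul (Cf_diff R1 hs)).differentiableWithinAt
  have d2 : AnalyticOnNhd ℂ (fun s => E2 s * Cf (bb χ2) 0 s) {s : ℂ | 1 / 2 < s.re} := by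
    apply DifferentiableOn.analyticOnNhd _ hU
    intro s hs
    exact ((a2 s).mul (Cf_diff R2 hs)).differentiableWithinAt
  have h2U : (2 : ℂ) ∈ {s : ℂ | 1 / 2 < s.re} := by
    show (1 / 2 : ℝ) < (2 : ℂ).re
    norm_num
  have hev : (fun s => E1 s * Cf (bb χ1) 0 s) =ᶠ[𝓝 2] (fun s => E2 s * Cf (bb χ2) 0 s) := by
    filter_upwards [two_nhds] with s hs
    have hs' : 1 < s.re := hs
    have h3 := c1 s hs'
    rw [e] at h3
    have h4 := h3.unique (c2 s hs')
    rw [Cf_eq0 R1 hs', Cf_eq0 R2 hs'] at h4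
    exact h4
  have h5 := d1.eqOn_of_preconnected_of_eventuallyEq d2 hpc h2U hev hβ
  simp only at h5
  rw [h0, mul_zero] at h5
  rcases mul_eq_zero.1 h5.symm with h6 | h6
  · exact absurd h6 (b2 β (by linarith))
  · exact h6

end

end Pool.Agent.N531.GNS
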