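import Mathlib
import Pool.Agent.N531.GN.Rem

/-!
# Project GN (helper782), task SIEG (helper531): Siegel's theorem for real characters of the Gaussian integers.
-/

set_option autoImplicit false

open Filter Topology Set
open scoped ComplexOrder

namespace Pool.Agent.N531.GNS

open Pool.Agent.N782.GN
open Pool.Agent.H304R3.HK (UH bb)
open Pool.Agent.H304R3.HK.M4 (T mem_T bb_eq h1 h1_of h1i norm_nn norm_zero_iff)

noncomputable section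

/-- the residue -/
def kp : ℝ := Real.pi / 4

lemma kp_gt : 3 / 4 < kp := by
  unfold kp
  have := Real.pi_gt_three
  linarith

lemma kp_lt : kp < 1 := by
  unfold kp
  have := Real.pi_lt_four
  linarith

/-- the regular part of the zeta function of `ℚ(i)` -/
def Z : ℂ → ℂ := Cf (bb h1) kp

lemma crude {b : ℕ → ℂ} {κ A : ℝ} (H : Reg b κ A) {s : ℂ} (h1 : 3 / 4 ≤ s.re) (h2 : ‖s‖ ≤ 13 / 4) :
    ‖Cf b κ s‖ ≤ 13 * A := by
  have h := Cf_norm H (s := s) (by linarith)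
  have hA := H.A0
  have h3 : A / (s.re - 1 / 2) ≤ 4 * A := by
    rw [div_le_iff₀ (by linarith)]
    nlinarith
  calc ‖Cf b κ s‖ ≤ ‖s‖ * (A / (s.re - 1 / 2)) := h
    _ ≤ (13 / 4) * (4 * A) := mul_le_mul h2 h3 (div_nonneg hA (by linarith)) (by norm_num)
    _ = 13 * A := by ring

lemma zK {C : ℝ} (hC : ELC C) {s : ℂ} (hs : 1 < s.re) :
    LSeries (bb h1) s = kp * s / (s - 1) + Z s := Cf_eq (Reg_h1 hC) hs

section

variable {C : ℝ} {q : ℕ} {χ : ZI →* ℂ}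

lemma vals0 (hχ : RChi q χ) (z : ZI) : χ z = 0 ∨ χ z = 1 ∨ χ z = -1 := by
  by_cases h : IsCoprime z ((q : ℕ) : ZI)
  · exact Or.inr (chi_vals hχ h)
  · left
    by_contra h0
    exact h ((hχ.chi.supp z).1 h0)

lemma sum2_nonneg (hχ : RChi q χ) (z : ZI) : 0 ≤ ∑ j, (![h1, χ] : Fin 2 → ZI →* ℂ) j z := by
  rw [Fin.sum_univ_two]
  simp only [Matrix.cons_val_zero, Matrix.cons_val_one]
  by_cases hz : z = 0
  · rw [hz, UH_h1.h0, (UH_of hχ).h0, add_zero]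
  · rw [h1_of hz]
    rcases vals0 hχ z with h | h | h <;> rw [h] <;> norm_num

lemma hh2 (hχ : RChi q χ) (j : Fin 2) : UH ((![h1, χ] : Fin 2 → ZI →* ℂ) j) := by
  fin_cases j
  · exact UH_h1
  · exact UH_of hχ

lemma est2 (hC : ELC C) (hq : 1 ≤ q) (hχ : RChi q χ) :
    Est (![h1, χ] : Fin 2 → ZI →* ℂ) kp C (13 * (C + 1) * (q : ℝ) ^ 2) Z (Cf (bb χ) 0) := by
  have hC0 := hC.1
  have hq1 : (1 : ℝ) ≤ q := by exact_mod_cast hq
  have hq2 : (1 : ℝ) ≤ (q : ℝ) ^ 2 := one_le_pow₀ hq1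
  refine ⟨hh2 hχ, sum2_nonneg hχ, by have := kp_gt; linarith, hC0.le, by nlinarith, ?_, ?_, ?_, ?_, ?_⟩
  · intro s hs
    exact Cf_diff (Reg_h1 hC) hs
  · intro s hs1 hs2
    exact crude (Reg_h1 hC) hs1 hs2
  · intro s hs
    exact Cf_diff (Reg_chi hC hq hχ) hs
  · intro s hs1 hs2
    refine (crude (Reg_chi hC hq hχ) hs1 hs2).trans ?_
    nlinarith
  · intro s hs
    unfold PL
    rw [Fin.prod_univ_two]
    simp only [Matrix.cons_val_zero, Matrix.cons_val_one]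
    rw [zK hC hs, Cf_eq0 (Reg_chi hC hq hχ) hs]

/-- the product of two characters -/
lemma RChi_mul {q1 q2 : ℕ} {χ1 χ2 : ZI →* ℂ} (hχ1 : RChi q1 χ1) (hχ2 : RChi q2 χ2)
    (hnp : ∃ a : ZI, IsCoprime a ((q1 : ℕ) : ZI) ∧ IsCoprime a ((q2 : ℕ) : ZI) ∧ χ1 a * χ2 a ≠ 1) :
    RChi (q1 * q2) (χ1 * χ2) := by
  refine ⟨⟨?_, ?_, ?_⟩, ?_, ?_, ?_⟩
  · intro a b hab
    rw [Nat.cast_mul] at hab
    rw [MonoidHom.mul_apply, MonoidHom.mul_apply, hχ1.chi.per a b (dvd_of_mul_right_dvd hab),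
      hχ2.chi.per a b (dvd_of_mul_left_dvd hab)]
  · intro a
    rw [MonoidHom.mul_apply, mul_ne_zero_iff, hχ1.chi.supp, hχ2.chi.supp, Nat.cast_mul,
      IsCoprime.mul_right_iff]
  · intro a ha
    rw [Nat.cast_mul, IsCoprime.mul_right_iff] at ha
    rw [MonoidHom.mul_apply, norm_mul, hχ1.chi.nrm a ha.1, hχ2.chi.nrm a ha.2, mul_one]
  · intro a
    rw [MonoidHom.mul_apply, Complex.mul_im, hχ1.real, hχ2.real, mul_zero, zero_mul, add_zero]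
  · rw [MonoidHom.mul_apply, hχ1.unit, hχ2.unit, mul_one]
  · obtain ⟨a, h1, h2, h3⟩ := hnp
    refine ⟨a, ?_, ?_⟩
    · rw [Nat.cast_mul]
      exact h1.mul_right h2
    · rw [MonoidHom.mul_apply]
      exact h3

/-- product of the three nontrivial L-functions -/
def H3 (χ1 χ2 : ZI →* ℂ) (s : ℂ) : ℂ := Cf (bb χ1) 0 s * Cf (bb χ2) 0 s * Cf (bb (χ1 * χ2 : ZI →* ℂ)) 0 s

lemma est4 (hC : ELC C) {q1 q2 : ℕ} {χ1 χ2 : ZI →* ℂ} (hq1 : 1 ≤ q1) (hq2 : 1 ≤ q2)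
    (hχ1 : RChi q1 χ1) (hχ2 : RChi q2 χ2) (hχ3 : RChi (q1 * q2) (χ1 * χ2)) :
    Est (![h1, χ1, χ2, χ1 * χ2] : Fin 4 → ZI →* ℂ) kp C
      ((13 * (C + 1)) ^ 3 * ((q1 : ℝ) ^ 4 * (q2 : ℝ) ^ 4)) Z (H3 χ1 χ2) := by
  have hC0 := hC.1
  have hq1' : (1 : ℝ) ≤ q1 := by exact_mod_cast hq1
  have hq2' : (1 : ℝ) ≤ q2 := by exact_mod_cast hq2
  have hq3 : 1 ≤ q1 * q2 := Nat.mul_pos hq1 hq2
  have R1 := Reg_chi hC hq1 hχ1
  have R2 := Reg_chi hC hq2 hχ2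
  have R3 := Reg_chi hC hq3 hχ3
  refine ⟨?_, ?_, by have := kp_gt; linarith, hC0.le, ?_, ?_, ?_, ?_, ?_, ?_⟩
  · intro j
    fin_cases j
    · exact UH_h1
    · exact UH_of hχ1
    · exact UH_of hχ2
    · exact UH_of hχ3
  · intro z
    rw [Fin.sum_univ_four]
    simp only [Matrix.cons_val_zero, Matrix.cons_val_one, Matrix.cons_val, MonoidHom.mul_apply]
    by_cases hz : z = 0
    · rw [hz, UH_h1.h0, (UH_of hχ1).h0, (UH_of hχ2).h0]
      simp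
    · rw [h1_of hz]
      rcases vals0 hχ1 z with h | h | h <;> rcases vals0 hχ2 z with h' | h' | h' <;>
        rw [h, h'] <;> norm_num
  · have e1 : 1 ≤ (13 * (C + 1)) ^ 3 := one_le_pow₀ (by linarith)
    have e2 : 1 ≤ (q1 : ℝ) ^ 4 := one_le_pow₀ hq1'
    have e3 : 1 ≤ (q2 : ℝ) ^ 4 := one_le_pow₀ hq2'
    have e4 : 1 ≤ (q1 : ℝ) ^ 4 * (q2 : ℝ) ^ 4 := by nlinarith
    nlinarith
  · intro s hs
    exact Cf_diff (Reg_h1 hC) hs
  · intro s hs1 hs2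
    exact crude (Reg_h1 hC) hs1 hs2
  · intro s hs
    unfold H3
    exact ((Cf_diff R1 hs).mul (Cf_diff R2 hs)).mul (Cf_diff R3 hs)
  · intro s hs1 hs2
    unfold H3
    rw [norm_mul, norm_mul]
    have a1 := crude R1 hs1 hs2
    have a2 := crude R2 hs1 hs2
    have a3 := crude R3 hs1 hs2
    have b1 : ‖Cf (bb χ1) 0 s‖ ≤ 13 * (C + 1) * (q1 : ℝ) ^ 2 := by
      refine a1.trans ?_
      have : 0 ≤ (q1 : ℝ) ^ 2 := by positivity
      nlinarith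
    have b2 : ‖Cf (bb χ2) 0 s‖ ≤ 13 * (C + 1) * (q2 : ℝ) ^ 2 := by
      refine a2.trans ?_
      have : 0 ≤ (q2 : ℝ) ^ 2 := by positivity
      nlinarith
    have b3 : ‖Cf (bb (χ1 * χ2 : ZI →* ℂ)) 0 s‖ ≤ 13 * (C + 1) * ((q1 : ℝ) * q2) ^ 2 := by
      refine a3.trans ?_
      rw [Nat.cast_mul]
      have : 0 ≤ ((q1 : ℝ) * q2) ^ 2 := by positivity
      nlinarith
    calc ‖Cf (bb χ1) 0 s‖ * ‖Cf (bb χ2) 0 s‖ * ‖Cf (bb (χ1 * χ2 : ZI →* ℂ)) 0 s‖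
        ≤ (13 * (C + 1) * (q1 : ℝ) ^ 2) * (13 * (C + 1) * (q2 : ℝ) ^ 2) *
          (13 * (C + 1) * ((q1 : ℝ) * q2) ^ 2) :=
          mul_le_mul (mul_le_mul b1 b2 (norm_nonneg _) (by positivity)) b3 (norm_nonneg _)
            (by positivity)
      _ = (13 * (C + 1)) ^ 3 * ((q1 : ℝ) ^ 4 * (q2 : ℝ) ^ 4) := by ring
  · intro s hs
    unfold PL H3
    rw [Fin.prod_univ_four]
    simp only [Matrix.cons_val_zero, Matrix.cons_val_one, Matrix.cons_val]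
    rw [zK hC hs, Cf_eq0 R1 hs, Cf_eq0 R2 hs, Cf_eq0 R3 hs]
    ring

/-! ### Real values -/

lemma bb_im {f : ZI → ℂ} (hf : ∀ z, (f z).im = 0) (n : ℕ) : (bb f n).im = 0 := by
  rw [bb_eq]
  have e : (1 / 4 : ℂ) = ((1 / 4 : ℝ) : ℂ) := by push_cast; rfl
  rw [e, Complex.im_ofReal_mul, Complex.im_sum, Finset.sum_eq_zero, mul_zero]
  intro z _
  exact hf z

lemma L_im (hχ : RChi q χ) (x : ℝ) : (Cf (bb χ) 0 (x : ℂ)).im = 0 :=
  Cf_im _ _ (fun n => bb_im hχ.real n) x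

lemma Z_im (x : ℝ) : (Z (x : ℂ)).im = 0 := by
  apply Cf_im
  intro n
  apply bb_im
  intro z
  by_cases hz : z = 0
  · rw [hz, UH_h1.h0]; simp
  · rw [h1_of hz]; simp

lemma L_two (hC : ELC C) (hq : 1 ≤ q) (hχ : RChi q χ) : 0 < (Cf (bb χ) 0 ((2 : ℝ) : ℂ)).re := by
  have h2 : 1 < (2 : ℂ).re := by norm_num
  have e1 := PL_two (fun _ : Fin 1 => h1) (fun _ => UH_h1) (by
    intro z
    rw [Fin.sum_univ_one]
    by_cases hz : z = 0
    · rw [hz, UH_h1.h0]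
    · rw [h1_of hz]; norm_num)
  have e2 := PL_two _ (hh2 hχ) (sum2_nonneg hχ)
  unfold PL at e1 e2
  rw [Fin.prod_univ_one] at e1
  rw [Fin.prod_univ_two] at e2
  simp only [Matrix.cons_val_zero, Matrix.cons_val_one] at e1 e2
  rw [Cf_eq0 (Reg_chi hC hq hχ) h2] at e2
  have e3 := L_im hχ 2
  have e4 : ((2 : ℝ) : ℂ) = 2 := by norm_num
  rw [e4] at e3 ⊢
  have e5 := (Complex.le_def.1 e2).1
  rw [Complex.one_re, Complex.mul_re, e3, mul_zero, sub_zero] at e5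
  have e6 := (Complex.le_def.1 e1).1
  rw [Complex.one_re] at e6
  by_contra hneg
  push Not at hneg
  nlinarith

lemma isL (hC : ELC C) (hq : 1 ≤ q) (hχ : RChi q χ) : IsL χ (Cf (bb χ) 0) := by
  constructor
  · intro s hs
    have hs' : (9 / 10 : ℝ) < s.re := hs
    exact (Cf_diff (Reg_chi hC hq hχ) (by linarith)).differentiableWithinAt
  · intro s hs
    exact (Cf_eq0 (Reg_chi hC hq hχ) hs).symm

lemma L_eq_one (hC : ELC C) (hq : 1 ≤ q) (hχ : RChi q χ) {L : ℂ → ℂ} (hL : IsL χ L) :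
    L 1 = Cf (bb χ) 0 1 := by
  have hU : IsOpen {s : ℂ | 9 / 10 < s.re} := isOpen_lt continuous_const Complex.continuous_re
  have hpc : IsPreconnected {s : ℂ | 9 / 10 < s.re} :=
    (convex_halfSpace_re_gt (9 / 10)).isPreconnected
  have d1 : AnalyticOnNhd ℂ L {s : ℂ | 9 / 10 < s.re} := hL.diff.analyticOnNhd hU
  have d2 : AnalyticOnNhd ℂ (Cf (bb χ) 0) {s : ℂ | 9 / 10 < s.re} :=
    (isL hC hq hχ).diff.analyticOnNhd hU
  have h2U : (2 : ℂ) ∈ {s : ℂ | 9 / 10 < s.re} := by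
    show (9 / 10 : ℝ) < (2 : ℂ).re
    norm_num
  have hev : L =ᶠ[𝓝 2] Cf (bb χ) 0 := by
    filter_upwards [two_nhds] with s hs
    rw [hL.eq s hs, (isL hC hq hχ).eq s hs]
  refine d1.eqOn_of_preconnected_of_eventuallyEq d2 hpc h2U hev ?_
  show (9 / 10 : ℝ) < (1 : ℂ).re
  norm_num

lemma pos_of (hC : ELC C) (hN : S_NZ) (hq : 1 ≤ q) (hχ : RChi q χ) {β : ℝ} (hβ0 : 1 / 2 < β)
    (hβ1 : β ≤ 1) (hnz : ∀ y : ℝ, β ≤ y → y < 1 → Cf (bb χ) 0 (y : ℂ) ≠ 0) :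
    0 < (Cf (bb χ) 0 (β : ℂ)).re := by
  by_contra hneg
  push Not at hneg
  have hc : ContinuousOn (fun y : ℝ => (Cf (bb χ) 0 (y : ℂ)).re) (Icc β 2) := by
    intro y hy
    have h1 : ContinuousAt (Cf (bb χ) 0) (y : ℂ) :=
      (Cf_diff (Reg_chi hC hq hχ) (s := (y : ℂ)) (by
        rw [Complex.ofReal_re]; have := hy.1; linarith)).continuousAt
    have h2 : ContinuousAt (fun y : ℝ => Cf (bb χ) 0 (y : ℂ)) y :=
      ContinuousAt.comp (f := fun y : ℝ => (y : ℂ)) (g := Cf (bb χ) 0) h1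
        Complex.continuous_ofReal.continuousAt
    exact (Complex.continuous_re.continuousAt.comp h2).continuousWithinAt
  have h2 := (L_two hC hq hχ).le
  have := intermediate_value_Icc (by linarith : β ≤ 2) hc ⟨hneg, h2⟩
  obtain ⟨y, ⟨hy1, hy2⟩, hy3⟩ := this
  have hy0 : Cf (bb χ) 0 (y : ℂ) = 0 := by
    apply Complex.ext
    · simpa using hy3
    · simpa using L_im hχ y
  rcases lt_trichotomy y 1 with h3 | h3 | h3
  · exact hnz y hy1 h3 hy0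
  · subst h3
    rw [Complex.ofReal_one] at hy0
    exact hN q χ _ hq hχ (isL hC hq hχ) hy0
  · have h4 : 1 < (y : ℂ).re := by rwa [Complex.ofReal_re]
    rw [← Cf_eq0 (Reg_chi hC hq hχ) h4] at hy0
    exact L_ne (UH_of hχ) h4 hy0

lemma zK_neg (hC : ELC C) {β : ℝ} (hβ : 7 / 8 ≤ β) (hβ1 : β < 1) (hβ2 : 1 - 1 / (5 * (C + 1)) ≤ β) :
    (kp * (β : ℂ) / ((β : ℂ) - 1) + Z (β : ℂ)).re < 0 ∧
    (kp * (β : ℂ) / ((β : ℂ) - 1) + Z (β : ℂ)).im = 0 := by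
  have hC0 := hC.1
  have e1 : (kp : ℂ) * (β : ℂ) / ((β : ℂ) - 1) = ((kp * β / (β - 1) : ℝ) : ℂ) := by push_cast; rfl
  rw [Complex.add_re, Complex.add_im, Z_im, e1, Complex.ofReal_re, Complex.ofReal_im, add_zero]
  refine ⟨?_, rfl⟩
  have h1 := Cf_norm (Reg_h1 hC) (s := (β : ℂ)) (by rw [Complex.ofReal_re]; linarith)
  rw [Complex.ofReal_re, Complex.norm_real, Real.norm_of_nonneg (by linarith)] at h1
  have h2 : C / (β - 1 / 2) ≤ 3 * C := by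
    rw [div_le_iff₀ (by linarith)]
    nlinarith
  have h3 : ‖Z (β : ℂ)‖ ≤ 3 * C := by
    refine h1.trans ?_
    have h4 : 0 ≤ C / (β - 1 / 2) := div_nonneg hC0.le (by linarith)
    nlinarith
  have h4 := (Complex.re_le_norm (Z (β : ℂ))).trans h3
  have h5 : 3 * C < kp * β / (1 - β) := by
    rw [lt_div_iff₀ (by linarith)]
    have h6 : 1 - β ≤ 1 / (5 * (C + 1)) := by linarith
    have h7 : 3 * C * (1 - β) ≤ 3 * C * (1 / (5 * (C + 1))) :=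
      mul_le_mul_of_nonneg_left h6 (by linarith)
    have h8 : 3 * C * (1 / (5 * (C + 1))) ≤ 3 / 5 := by
      rw [mul_one_div, div_le_div_iff₀ (by positivity) (by norm_num)]
      nlinarith
    have h9 := kp_gt
    have : 21 / 32 ≤ kp * β := by nlinarith
    linarith
  have h6 : kp * β / (β - 1) = -(kp * β / (1 - β)) := by
    rw [← neg_sub 1 β, div_neg]
  rw [h6]
  linarith

end

/-! ### The lower bounds -/

/-- the constant -/
def K1 (C : ℝ) : ℝ := 20 * ((17 * kp + 13 * C) * (13 * (C + 1)) ^ 3)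

lemma K1_ge {C : ℝ} (hC : 0 < C) : 1 ≤ K1 C := by
  unfold K1
  have h1 := kp_gt
  have h2 : 1 ≤ (13 * (C + 1)) ^ 3 := one_le_pow₀ (by linarith)
  nlinarith

lemma low2 {C : ℝ} (hC : ELC C) {q : ℕ} {χ : ZI →* ℂ} (hq : 1 ≤ q) (hχ : RChi q χ) {η β : ℝ}
    (hη : 0 < η) (hη1 : η ≤ 1 / 8) (hβ : 1 - η ≤ β) (hβ1 : β < 1)
    (hF : (FF kp Z (Cf (bb χ) 0) (β : ℂ)).re ≤ 0) :
    (1 - β) / 4 * (K1 C) ^ (-(10 * η)) * (q : ℝ) ^ (-(20 * η)) ≤ (Cf (bb χ) 0 1).re := by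
  have hC0 := hC.1
  have hq1 : (1 : ℝ) ≤ q := by exact_mod_cast hq
  have hq0 : (0 : ℝ) < q := by linarith
  obtain ⟨k1, k2⟩ := key (est2 hC hq hχ) (by linarith) hβ1 hF
  set l := (Cf (bb χ) 0 1).re with hl
  have hl0 : 0 < l := by
    by_contra hneg
    push Not at hneg
    have := kp_gt
    nlinarith
  have hK := K1_ge hC0
  have hX : 20 * ((17 * kp + 13 * C) * (13 * (C + 1) * (q : ℝ) ^ 2)) ≤ K1 C * (q : ℝ) ^ 2 := by
    unfold K1
    have h1 : 13 * (C + 1) ≤ (13 * (C + 1)) ^ 3 := by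
      calc 13 * (C + 1) = (13 * (C + 1)) ^ 1 := (pow_one _).symm
        _ ≤ _ := pow_le_pow_right₀ (by linarith) (by norm_num)
    have h2 := kp_gt
    have h3 : 0 ≤ 20 * (17 * kp + 13 * C) * (q : ℝ) ^ 2 := by positivity
    nlinarith
  have hX1 : 1 ≤ 20 * ((17 * kp + 13 * C) * (13 * (C + 1) * (q : ℝ) ^ 2)) := by
    have h2 := kp_gt
    have h3 : 1 ≤ (q : ℝ) ^ 2 := one_le_pow₀ hq1
    have h4 : 1 ≤ 13 * (C + 1) * (q : ℝ) ^ 2 := by nlinarith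
    nlinarith
  have h3 : (20 * ((17 * kp + 13 * C) * (13 * (C + 1) * (q : ℝ) ^ 2))) ^ (10 * (1 - β)) ≤
      (K1 C) ^ (10 * η) * (q : ℝ) ^ (20 * η) := by
    calc _ ≤ (20 * ((17 * kp + 13 * C) * (13 * (C + 1) * (q : ℝ) ^ 2))) ^ (10 * η) :=
          Real.rpow_le_rpow_of_exponent_le hX1 (by linarith)
      _ ≤ (K1 C * (q : ℝ) ^ 2) ^ (10 * η) :=
          Real.rpow_le_rpow (by linarith) hX (by positivity)
      _ = (K1 C) ^ (10 * η) * (q : ℝ) ^ (20 * η) := by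
          rw [Real.mul_rpow (by linarith) (by positivity), ← Real.rpow_natCast,
            ← Real.rpow_mul hq0.le]
          congr 2
          push_cast
          ring
  have hkl : kp * l ≤ l := by
    have := kp_lt
    nlinarith
  have h4 : (1 - β) / 4 ≤ l * ((K1 C) ^ (10 * η) * (q : ℝ) ^ (20 * η)) := by
    refine k2.trans ?_
    exact mul_le_mul hkl h3 (by positivity) hl0.le
  have p1 : 0 < (K1 C) ^ (10 * η) := Real.rpow_pos_of_pos (by linarith) _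
  have p2 : 0 < (q : ℝ) ^ (20 * η) := Real.rpow_pos_of_pos hq0 _
  rw [Real.rpow_neg (by linarith), Real.rpow_neg hq0.le, mul_assoc, ← mul_inv, ← div_eq_mul_inv,
    div_le_iff₀ (by positivity)]
  exact h4

lemma low4 {C : ℝ} (hC : ELC C) (hN : S_NZ) {q1 q2 : ℕ} {χ1 χ2 : ZI →* ℂ} (hq1 : 1 ≤ q1) (hq2 : 1 ≤ q2)
    (hχ1 : RChi q1 χ1) (hχ2 : RChi q2 χ2) (hχ3 : RChi (q1 * q2) (χ1 * χ2)) {η β : ℝ}
    (hη : 0 < η) (hη1 : η ≤ 1 / 8) (hβ : 1 - η ≤ β) (hβ1 : β < 1)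
    (hz : Cf (bb χ1) 0 (β : ℂ) = 0) :
    (1 - β) / 4 * (K1 C * (q1 : ℝ) ^ 4) ^ (-(10 * η)) /
      ((‖Cf (bb χ1) 0 1‖ + 1) * ((4 + C) * (C + 1) * (2 / η) * (q1 : ℝ) ^ (2 * η))) *
      (q2 : ℝ) ^ (-(42 * η)) ≤ (Cf (bb χ2) 0 1).re := by
  have hC0 := hC.1
  have hq1' : (1 : ℝ) ≤ q1 := by exact_mod_cast hq1
  have hq2' : (1 : ℝ) ≤ q2 := by exact_mod_cast hq2
  have hq10 : (0 : ℝ) < q1 := by linarith
  have hq20 : (0 : ℝ) < q2 := by linarith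
  have hF : (FF kp Z (H3 χ1 χ2) (β : ℂ)).re ≤ 0 := by
    unfold FF H3
    rw [hz]
    simp
  obtain ⟨k1, k2⟩ := key (est4 hC hq1 hq2 hχ1 hχ2 hχ3) (by linarith) hβ1 hF
  have hK := K1_ge hC0
  set l := (Cf (bb χ2) 0 1).re with hl
  -- positivity at one
  have hl0 : 0 < l := by
    have := pos_of hC hN hq2 hχ2 (β := 1) (by norm_num) le_rfl (fun y h1 h2 => by linarith)
    simpa using this
  have hl1 : ‖Cf (bb χ2) 0 1‖ = l := by
    have h1 := L_im hχ2 1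
    rw [Complex.ofReal_one] at h1
    have h2 : Cf (bb χ2) 0 1 = ((l : ℝ) : ℂ) := by
      apply Complex.ext
      · simp [hl]
      · simpa using h1
    rw [h2, Complex.norm_real, Real.norm_of_nonneg hl0.le]
  set M := ‖Cf (bb χ1) 0 1‖ + 1 with hM
  have hM0 : 0 < M := by have := norm_nonneg (Cf (bb χ1) 0 1); linarith
  set N := (4 + C) * (C + 1) * (2 / η) with hN'
  have hN0 : 0 < N := by positivity
  have hu := upper_one hC (Nat.mul_pos hq1 hq2) hχ3 (δ := η) hη (by linarith)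
  rw [← hN'] at hu
  have hu' : ‖Cf (bb (χ1 * χ2 : ZI →* ℂ)) 0 1‖ ≤ N * ((q1 : ℝ) ^ (2 * η) * (q2 : ℝ) ^ (2 * η)) := by
    refine hu.trans (le_of_eq ?_)
    push_cast
    rw [Real.mul_rpow hq10.le hq20.le]
  have hH : kp * (H3 χ1 χ2 1).re ≤ l * (M * (N * ((q1 : ℝ) ^ (2 * η) * (q2 : ℝ) ^ (2 * η)))) := by
    have h1 : (H3 χ1 χ2 1).re ≤ l * (M * (N * ((q1 : ℝ) ^ (2 * η) * (q2 : ℝ) ^ (2 * η)))) := by
      refine (Complex.re_le_norm _).trans ?_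
      unfold H3
      rw [norm_mul, norm_mul, hl1]
      calc ‖Cf (bb χ1) 0 1‖ * l * ‖Cf (bb (χ1 * χ2 : ZI →* ℂ)) 0 1‖
          = l * (‖Cf (bb χ1) 0 1‖ * ‖Cf (bb (χ1 * χ2 : ZI →* ℂ)) 0 1‖) := by ring
        _ ≤ _ := by
          apply mul_le_mul_of_nonneg_left _ hl0.le
          exact mul_le_mul (by linarith) hu' (norm_nonneg _) hM0.le
    have h2 := kp_lt
    have h3 := kp_gt
    have h4 : 0 ≤ l * (M * (N * ((q1 : ℝ) ^ (2 * η) * (q2 : ℝ) ^ (2 * η)))) := by positivity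
    have h5 : 0 < (H3 χ1 χ2 1).re := by
      by_contra hneg
      push Not at hneg
      nlinarith
    nlinarith
  have hX : 20 * ((17 * kp + 13 * C) * ((13 * (C + 1)) ^ 3 * ((q1 : ℝ) ^ 4 * (q2 : ℝ) ^ 4))) =
      (K1 C * (q1 : ℝ) ^ 4) * (q2 : ℝ) ^ 4 := by
    unfold K1
    ring
  rw [hX] at k2
  have hX0 : 1 ≤ K1 C * (q1 : ℝ) ^ 4 := by
    have : 1 ≤ (q1 : ℝ) ^ 4 := one_le_pow₀ hq1'
    nlinarith
  have hX1 : 1 ≤ (K1 C * (q1 : ℝ) ^ 4) * (q2 : ℝ) ^ 4 := by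
    have : 1 ≤ (q2 : ℝ) ^ 4 := one_le_pow₀ hq2'
    nlinarith
  have h3 : ((K1 C * (q1 : ℝ) ^ 4) * (q2 : ℝ) ^ 4) ^ (10 * (1 - β)) ≤
      (K1 C * (q1 : ℝ) ^ 4) ^ (10 * η) * (q2 : ℝ) ^ (40 * η) := by
    calc _ ≤ ((K1 C * (q1 : ℝ) ^ 4) * (q2 : ℝ) ^ 4) ^ (10 * η) :=
          Real.rpow_le_rpow_of_exponent_le hX1 (by linarith)
      _ = _ := by
          rw [Real.mul_rpow (by linarith) (by positivity)]
          congr 1
          rw [← Real.rpow_natCast (q2 : ℝ) 4, ← Real.rpow_mul hq20.le]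
          congr 1
          push_cast
          ring
  have h4 : (1 - β) / 4 ≤ l * (M * (N * ((q1 : ℝ) ^ (2 * η) * (q2 : ℝ) ^ (2 * η)))) *
      ((K1 C * (q1 : ℝ) ^ 4) ^ (10 * η) * (q2 : ℝ) ^ (40 * η)) := by
    refine k2.trans ?_
    exact mul_le_mul hH h3 (by positivity) (by positivity)
  have e42 : (q2 : ℝ) ^ (42 * η) = (q2 : ℝ) ^ (2 * η) * (q2 : ℝ) ^ (40 * η) := by
    rw [← Real.rpow_add hq20]
    congr 1
    ring
  have p1 : 0 < (K1 C * (q1 : ℝ) ^ 4) ^ (10 * η) := Real.rpow_pos_of_pos (by linarith) _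
  have p2 : 0 < (q2 : ℝ) ^ (42 * η) := Real.rpow_pos_of_pos hq20 _
  have p3 : 0 < (q1 : ℝ) ^ (2 * η) := Real.rpow_pos_of_pos hq10 _
  rw [Real.rpow_neg (by linarith), Real.rpow_neg hq20.le, ← div_eq_mul_inv, ← div_eq_mul_inv,
    div_div, div_div, div_le_iff₀ (by positivity)]
  refine h4.trans (le_of_eq ?_)
  rw [e42]
  ring

/-- **Siegel's theorem** for real characters of `ℤ[i]` -/
theorem sieg (hE : S_EL) (hN : S_NZ) : S_SIEG := by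
  obtain ⟨C, hC⟩ := ELC_of hE
  have hC0 := hC.1
  have hK := K1_ge hC0
  intro ε hε
  set η : ℝ := min (ε / 50) (min (1 / 8) (1 / (5 * (C + 1)))) with hη
  have hη0 : 0 < η := by
    rw [hη]
    refine lt_min (by positivity) (lt_min (by norm_num) (by positivity))
  have hη1 : η ≤ 1 / 8 := (min_le_right _ _).trans (min_le_left _ _)
  have hη2 : η ≤ 1 / (5 * (C + 1)) := (min_le_right _ _).trans (min_le_right _ _)
  have hη3 : 50 * η ≤ ε := by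
    have : η ≤ ε / 50 := min_le_left _ _
    linarith
  have hmono : ∀ (q : ℕ) (a : ℝ), 1 ≤ q → a ≤ 50 * η → (q : ℝ) ^ (-ε) ≤ (q : ℝ) ^ (-a) := by
    intro q a hq ha
    have hq1 : (1 : ℝ) ≤ q := by exact_mod_cast hq
    exact Real.rpow_le_rpow_of_exponent_le hq1 (by linarith)
  by_cases hz : ∃ (q1 : ℕ) (χ1 : ZI →* ℂ) (β : ℝ), 1 ≤ q1 ∧ RChi q1 χ1 ∧ 1 - η ≤ β ∧ β < 1 ∧
      Cf (bb χ1) 0 (β : ℂ) = 0
  · obtain ⟨q1, χ1, β, hq1, hχ1, hβ, hβ1, hz⟩ := hz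
    have hq1' : (1 : ℝ) ≤ q1 := by exact_mod_cast hq1
    have hq10 : (0 : ℝ) < q1 := by linarith
    set c1 : ℝ := (1 - β) / 4 * (K1 C) ^ (-(10 * η)) with hc1
    set c2 : ℝ := (1 - β) / 4 * (K1 C * (q1 : ℝ) ^ 4) ^ (-(10 * η)) /
      ((‖Cf (bb χ1) 0 1‖ + 1) * ((4 + C) * (C + 1) * (2 / η) * (q1 : ℝ) ^ (2 * η))) with hc2
    have hb : 0 < 1 - β := by linarith
    have hc10 : 0 < c1 := by
      have : 0 < (K1 C) ^ (-(10 * η)) := Real.rpow_pos_of_pos (by linarith) _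
      positivity
    have hc20 : 0 < c2 := by
      have h1 : 0 < (K1 C * (q1 : ℝ) ^ 4) ^ (-(10 * η)) := Real.rpow_pos_of_pos (by positivity) _
      have h2 : 0 < ‖Cf (bb χ1) 0 1‖ + 1 := by have := norm_nonneg (Cf (bb χ1) 0 1); linarith
      positivity
    refine ⟨min c1 c2, lt_min hc10 hc20, ?_⟩
    intro q χ L hq hχ hL
    rw [L_eq_one hC hq hχ hL]
    by_cases hpr : ∀ a : ZI, IsCoprime a ((q1 : ℕ) : ZI) → IsCoprime a ((q : ℕ) : ZI) →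
        χ1 a * χ a = 1
    · have h0 : Cf (bb χ) 0 (β : ℂ) = 0 :=
        cmp hC hq1 hq hχ1 hχ hpr (by rw [Complex.ofReal_re]; linarith) hz
      have hF : (FF kp Z (Cf (bb χ) 0) (β : ℂ)).re ≤ 0 := by
        unfold FF
        rw [h0]
        simp
      have h := low2 hC hq hχ hη0 hη1 hβ hβ1 hF
      calc min c1 c2 * (q : ℝ) ^ (-ε) ≤ c1 * (q : ℝ) ^ (-(20 * η)) :=
            mul_le_mul (min_le_left _ _) (hmono q _ hq (by linarith)) (by positivity) hc10.le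
        _ ≤ _ := h
    · push Not at hpr
      obtain ⟨a, ha1, ha2, ha3⟩ := hpr
      have hχ3 := RChi_mul hχ1 hχ ⟨a, ha1, ha2, ha3⟩
      have h := low4 hC hN hq1 hq hχ1 hχ hχ3 hη0 hη1 hβ hβ1 hz
      calc min c1 c2 * (q : ℝ) ^ (-ε) ≤ c2 * (q : ℝ) ^ (-(42 * η)) :=
            mul_le_mul (min_le_right _ _) (hmono q _ hq (by linarith)) (by positivity) hc20.le
        _ ≤ _ := h
  · push Not at hz
    set c1 : ℝ := η / 4 * (K1 C) ^ (-(10 * η)) with hc1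
    have hc10 : 0 < c1 := by
      have : 0 < (K1 C) ^ (-(10 * η)) := Real.rpow_pos_of_pos (by linarith) _
      positivity
    refine ⟨c1, hc10, ?_⟩
    intro q χ L hq hχ hL
    rw [L_eq_one hC hq hχ hL]
    have hβ1 : 1 - η < 1 := by linarith
    have hp := pos_of hC hN hq hχ (β := 1 - η) (by linarith) hβ1.le
      (fun y h1 h2 => hz q χ y hq hχ h1 h2)
    obtain ⟨z1, z2⟩ := zK_neg hC (β := 1 - η) (by linarith) hβ1 (by linarith)
    have hF : (FF kp Z (Cf (bb χ) 0) ((1 - η : ℝ) : ℂ)).re ≤ 0 := by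
      unfold FF
      rw [Complex.mul_re, z2, zero_mul, sub_zero]
      exact (mul_neg_of_neg_of_pos z1 hp).le
    have h := low2 hC hq hχ hη0 hη1 le_rfl hβ1 hF
    have e : 1 - (1 - η) = η := by ring
    rw [e] at h
    calc c1 * (q : ℝ) ^ (-ε) ≤ c1 * (q : ℝ) ^ (-(20 * η)) :=
          mul_le_mul_of_nonneg_left (hmono q _ hq (by linarith)) hc10.le
      _ ≤ _ := h

end

end Pool.Agent.N531.GNS
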